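import Pool.Agent.helper51.WR.Fine4
import Pool.Agent.helper51.WR.Gen
import Pool.Agent.helper51.WR.Final

/-!
# N4-Base: four labelled sheets, cusps, fibres
-/

namespace WR

open Polynomial

open Classical in
/-- symmetric sums over the triples of a set of four elements -/
theorem n4_sum3 {A : Type} {x₀ x₁ x₂ x₃ : A} (h01 : x₀ ≠ x₁) (h02 : x₀ ≠ x₂)
    (h03 : x₀ ≠ x₃) (h12 : x₁ ≠ x₂) (h13 : x₁ ≠ x₃) (h23 : x₂ ≠ x₃) (f : A → A → A → ℚ)
    (hf : ∀ i j l, f j i l = f i j l) (hf' : ∀ i j l, f i l j = f i j l) :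
    sum3 ({x₀, x₁, x₂, x₃} : Finset A) f =
      6 * (f x₀ x₁ x₂ + f x₀ x₁ x₃ + f x₀ x₂ x₃ + f x₁ x₂ x₃) := by
  rw [CombI_sum3_iter]
  have n0 : x₀ ∉ ({x₁, x₂, x₃} : Finset A) := by simp [h01, h02, h03]
  have n1 : x₁ ∉ ({x₂, x₃} : Finset A) := by simp [h12, h13]
  have n2 : x₂ ∉ ({x₃} : Finset A) := by simp [h23]
  have hsum : ∀ g : A → ℚ, ∑ i ∈ ({x₀, x₁, x₂, x₃} : Finset A), g i =
      g x₀ + (g x₁ + (g x₂ + g x₃)) := by
    intro g
    rw [Finset.sum_insert n0, Finset.sum_insert n1, Finset.sum_insert n2, Finset.sum_singleton]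
  have perm : ∀ a b c, f a c b = f a b c ∧ f b a c = f a b c ∧ f b c a = f a b c ∧
      f c a b = f a b c ∧ f c b a = f a b c := by
    intro a b c
    have e1 : f a c b = f a b c := hf' a b c
    have e2 : f b a c = f a b c := hf a b c
    have e3 : f b c a = f b a c := hf' b a c
    have e4 : f c a b = f a c b := hf a c b
    have e5 : f c b a = f b c a := hf b c a
    exact ⟨e1, e2, e3.trans e2, e4.trans e1, e5.trans (e3.trans e2)⟩
  obtain ⟨a1, a2, a3, a4, a5⟩ := perm x₀ x₁ x₂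
  obtain ⟨b1, b2, b3, b4, b5⟩ := perm x₀ x₁ x₃
  obtain ⟨c1, c2, c3, c4, c5⟩ := perm x₀ x₂ x₃
  obtain ⟨d1, d2, d3, d4, d5⟩ := perm x₁ x₂ x₃
  simp only [hsum]
  simp only [ne_eq, not_true_eq_false, if_false, false_and, and_false, h01, h02, h03, h12, h13,
    h23, h01.symm, h02.symm, h03.symm, h12.symm, h13.symm, h23.symm, not_false_eq_true, if_true,
    and_self, a1, a2, a3, a4, a5, b1, b2, b3, b4, b5, c1, c2, c3, c4, c5, d1, d2, d3, d4, d5]
  ring

namespace Cur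

variable {S : Cur} {P : Option ℂ} {N : ℕ} {x₀ x₁ x₂ x₃ : M}

open Classical in
/-- the four sheets at a place, labelled -/
structure Lab (S : Cur) (P : Option ℂ) (N : ℕ) (x₀ x₁ x₂ x₃ : M) : Prop where
  sh : S.sh P N = {x₀, x₁, x₂, x₃}
  n01 : x₀ ≠ x₁
  n02 : x₀ ≠ x₂
  n03 : x₀ ≠ x₃
  n12 : x₁ ≠ x₂
  n13 : x₁ ≠ x₃
  n23 : x₂ ≠ x₃

theorem Lab.m0 (L : S.Lab P N x₀ x₁ x₂ x₃) : x₀ ∈ S.sh P N := by
  rw [L.sh]
  simp

theorem Lab.m1 (L : S.Lab P N x₀ x₁ x₂ x₃) : x₁ ∈ S.sh P N := by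
  rw [L.sh]
  simp

theorem Lab.m2 (L : S.Lab P N x₀ x₁ x₂ x₃) : x₂ ∈ S.sh P N := by
  rw [L.sh]
  simp

theorem Lab.m3 (L : S.Lab P N x₀ x₁ x₂ x₃) : x₃ ∈ S.sh P N := by
  rw [L.sh]
  simp

theorem Lab.S2 (L : S.Lab P N x₀ x₁ x₂ x₃) :
    S.S2 P N = 2 * (S.rho P N x₀ x₁ + S.rho P N x₀ x₂ + S.rho P N x₀ x₃ + S.rho P N x₁ x₂ +
      S.rho P N x₁ x₃ + S.rho P N x₂ x₃) := by
  unfold Cur.S2
  rw [L.sh]
  exact Fine4_sum2_four L.n01 L.n02 L.n03 L.n12 L.n13 L.n23 _ (fun i j => rho_symm)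

theorem Lab.S3 (L : S.Lab P N x₀ x₁ x₂ x₃) :
    S.S3 P N = 6 * (S.om P N x₀ x₁ x₂ + S.om P N x₀ x₁ x₃ + S.om P N x₀ x₂ x₃ +
      S.om P N x₁ x₂ x₃) := by
  unfold Cur.S3
  rw [L.sh]
  exact n4_sum3 L.n01 L.n02 L.n03 L.n12 L.n13 L.n23 _ (fun i j l => om_swap12)
    (fun i j l => om_swap23)

open Classical in
/-- a set of four elements with one, two, three elements in a part -/
theorem n4_card3 {A : Type} {R : Finset A} (h : R.card = 3) :
    ∃ a b c : A, a ≠ b ∧ a ≠ c ∧ b ≠ c ∧ R = {a, b, c} :=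
  Finset.card_eq_three.1 h

open Classical in
theorem n4_split (hn : S.n = 4) (hN : S.Adm P N) (p : M → Prop) :
    ((S.sh P N).filter p).card + ((S.sh P N).filter (fun τ => ¬ p τ)).card = 4 := by
  rw [Finset.card_filter_add_card_filter_not, sh_card S P hN, hn]

open Classical in
theorem n4_union (p : M → Prop) :
    S.sh P N = (S.sh P N).filter p ∪ (S.sh P N).filter (fun τ => ¬ p τ) :=
  (Finset.filter_union_filter_not_eq p (S.sh P N)).symm

open Classical in
/-- one sheet with the property `p` -/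
theorem lab1 (hn : S.n = 4) (hN : S.Adm P N) (p : M → Prop)
    (h : ((S.sh P N).filter p).card = 1) :
    ∃ x₀ x₁ x₂ x₃ : M, S.Lab P N x₀ x₁ x₂ x₃ ∧ p x₀ ∧ ¬ p x₁ ∧ ¬ p x₂ ∧ ¬ p x₃ := by
  have h4 := n4_split hn hN p
  obtain ⟨a, ha⟩ := Finset.card_eq_one.1 h
  obtain ⟨b, c, d, hbc, hbd, hcd, hR⟩ :=
    n4_card3 (R := (S.sh P N).filter (fun τ => ¬ p τ)) (by omega)
  have pa : p a := (Finset.mem_filter.1 (show a ∈ (S.sh P N).filter p by rw [ha]; simp)).2
  have pb : ¬ p b := (Finset.mem_filter.1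
    (show b ∈ (S.sh P N).filter (fun τ => ¬ p τ) by rw [hR]; simp)).2
  have pc : ¬ p c := (Finset.mem_filter.1
    (show c ∈ (S.sh P N).filter (fun τ => ¬ p τ) by rw [hR]; simp)).2
  have pd : ¬ p d := (Finset.mem_filter.1
    (show d ∈ (S.sh P N).filter (fun τ => ¬ p τ) by rw [hR]; simp)).2
  refine ⟨a, b, c, d, ⟨?_, ?_, ?_, ?_, hbc, hbd, hcd⟩, pa, pb, pc, pd⟩
  · rw [n4_union (S := S) p, ha, hR]
    ext w
    simp only [Finset.mem_union, Finset.mem_insert, Finset.mem_singleton]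
  · rintro rfl
    exact pb pa
  · rintro rfl
    exact pc pa
  · rintro rfl
    exact pd pa

open Classical in
/-- two sheets with the property `p` -/
theorem lab2 (hn : S.n = 4) (hN : S.Adm P N) (p : M → Prop)
    (h : ((S.sh P N).filter p).card = 2) :
    ∃ x₀ x₁ x₂ x₃ : M, S.Lab P N x₀ x₁ x₂ x₃ ∧ p x₀ ∧ p x₁ ∧ ¬ p x₂ ∧ ¬ p x₃ := by
  have h4 := n4_split hn hN p
  obtain ⟨a, b, hab, ha⟩ := Finset.card_eq_two.1 h
  obtain ⟨c, d, hcd, hR⟩ :=
    Finset.card_eq_two.1 (show ((S.sh P N).filter (fun τ => ¬ p τ)).card = 2 by omega)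
  have pa : p a := (Finset.mem_filter.1 (show a ∈ (S.sh P N).filter p by rw [ha]; simp)).2
  have pb : p b := (Finset.mem_filter.1 (show b ∈ (S.sh P N).filter p by rw [ha]; simp)).2
  have pc : ¬ p c := (Finset.mem_filter.1
    (show c ∈ (S.sh P N).filter (fun τ => ¬ p τ) by rw [hR]; simp)).2
  have pd : ¬ p d := (Finset.mem_filter.1
    (show d ∈ (S.sh P N).filter (fun τ => ¬ p τ) by rw [hR]; simp)).2
  refine ⟨a, b, c, d, ⟨?_, hab, ?_, ?_, ?_, ?_, hcd⟩, pa, pb, pc, pd⟩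
  · rw [n4_union (S := S) p, ha, hR]
    ext w
    simp only [Finset.mem_union, Finset.mem_insert, Finset.mem_singleton]
    tauto
  · rintro rfl
    exact pc pa
  · rintro rfl
    exact pd pa
  · rintro rfl
    exact pc pb
  · rintro rfl
    exact pd pb

open Classical in
/-- three sheets with the property `p` -/
theorem lab3 (hn : S.n = 4) (hN : S.Adm P N) (p : M → Prop)
    (h : ((S.sh P N).filter p).card = 3) :
    ∃ x₀ x₁ x₂ x₃ : M, S.Lab P N x₀ x₁ x₂ x₃ ∧ p x₀ ∧ p x₁ ∧ p x₂ ∧ ¬ p x₃ := by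
  have h4 := n4_split hn hN p
  obtain ⟨a, b, c, hab, hac, hbc, ha⟩ := n4_card3 h
  obtain ⟨d, hR⟩ :=
    Finset.card_eq_one.1 (show ((S.sh P N).filter (fun τ => ¬ p τ)).card = 1 by omega)
  have pa : p a := (Finset.mem_filter.1 (show a ∈ (S.sh P N).filter p by rw [ha]; simp)).2
  have pb : p b := (Finset.mem_filter.1 (show b ∈ (S.sh P N).filter p by rw [ha]; simp)).2
  have pc : p c := (Finset.mem_filter.1 (show c ∈ (S.sh P N).filter p by rw [ha]; simp)).2
  have pd : ¬ p d := (Finset.mem_filter.1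
    (show d ∈ (S.sh P N).filter (fun τ => ¬ p τ) by rw [hR]; simp)).2
  refine ⟨a, b, c, d, ⟨?_, hab, hac, ?_, hbc, ?_, ?_⟩, pa, pb, pc, pd⟩
  · rw [n4_union (S := S) p, ha, hR]
    ext w
    simp only [Finset.mem_union, Finset.mem_insert, Finset.mem_singleton]
    tauto
  · rintro rfl
    exact pd pa
  · rintro rfl
    exact pd pb
  · rintro rfl
    exact pd pc

/-- a root of `al` has positive multiplicity, and conversely -/
theorem e_pos_iff (P : Option ℂ) (t : ℂ) : 1 ≤ S.e P t ↔ (S.al P).IsRoot t := by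
  unfold e
  exact rootMultiplicity_pos (S.al_ne P)

theorem n4_jac_eval (P : Option ℂ) {t : ℂ} (hc : S.IsCusp t) : (S.jac P).eval t = 0 := by
  have h0 : (derivative S.a * S.b - S.a * derivative S.b).eval t = 0 := by
    rw [eval_sub, eval_mul, eval_mul, hc.1]
    ring
  rcases P with _ | v
  · rw [RH_none, eval_neg, h0, neg_zero]
  · rw [RH_some, h0]

/-- cusps are ramified over the line of the projection -/
theorem cusp_e {t : ℂ} (ht : (S.al P).IsRoot t) (hc : S.IsCusp t) : 2 ≤ S.e P t := by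
  obtain ⟨h1, h2⟩ := rootMult_jac ht
  have h3 : 0 < rootMultiplicity t (S.jac P) :=
    (rootMultiplicity_pos h1).2 (n4_jac_eval P hc)
  omega

/-- every finite point lies over exactly one place; here only existence -/
theorem cusp_over (t : ℂ) : ∃ P : Option ℂ, (S.al P).IsRoot t := by
  by_cases hb : S.b.eval t = 0
  · exact ⟨none, hb⟩
  · refine ⟨some (S.a.eval t / S.b.eval t), ?_⟩
    show (S.a - C (S.a.eval t / S.b.eval t) * S.b).eval t = 0
    rw [eval_sub, eval_mul, eval_C, div_mul_cancel₀ _ hb, sub_self]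

/-- at a cusp `y` has no terms of order between `1` and `2 h - 1`, `N = e h` -/
theorem cusp_coeff {h : ℕ} (hN : 0 < N) {τ : M} (hτ : τ ∈ S.sh P N) {t : ℂ}
    (ht : cen τ = some t) (hh : N = S.e P t * h) (hc : S.IsCusp t) {l : ℤ} (h0 : 0 < l)
    (hl : l < 2 * (h : ℤ)) : (S.y P τ).coeff l = 0 := by
  have hg := g_cusp hN hτ ht hh hc
  have hch := chain hN ((S.mem_sh P hN τ).1 hτ)
  have h2 : Ge ((N : ℕ) : M) 0 := by
    rw [← map_natCast (algebraMap ℂ M) N]
    exact ge_algebraMap _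
  have h3 : Ge (sp (N : ℤ)) N := by
    rw [ge_iff (sp_ne _), ord_sp]
  have h4 : Ge (eul (S.y P τ)) (2 * (h : ℤ)) := by
    rw [← hch]
    have := ge_mul (ge_mul h2 h3) hg
    simpa using this
  have h5 := h4 l hl
  rw [eul_coeff] at h5
  rcases mul_eq_zero.1 h5 with h6 | h6
  · exact absurd (Int.cast_eq_zero.1 h6) (by omega)
  · exact h6

/-- `Ram` and the number of points of the fibre -/
theorem n4_ram (S : Cur) (P : Option ℂ) : ∃ R : Finset ℂ,
    (∀ t, t ∈ R ↔ (S.al P).IsRoot t) ∧ S.Ram P = ∑ t ∈ R, (S.e P t - 1) ∧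
      ∑ t ∈ R, S.e P t = (if P = none then S.k else S.n) ∧
      S.Ram P + R.card = (if P = none then S.k else S.n) := by
  classical
  have h1 : ∀ t, t ∈ (S.al P).roots.toFinset ↔ (S.al P).IsRoot t := fun t => RH_mem S P t
  have h2 : S.Ram P = ∑ t ∈ (S.al P).roots.toFinset, (S.e P t - 1) := rfl
  have h3 : ∑ t ∈ (S.al P).roots.toFinset, S.e P t = (if P = none then S.k else S.n) := by
    rw [root_sum_e, natDegree_al]
  refine ⟨(S.al P).roots.toFinset, h1, h2, h3, ?_⟩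
  rw [← h3, h2, Finset.card_eq_sum_ones, ← Finset.sum_add_distrib]
  refine Finset.sum_congr rfl fun t ht => ?_
  have := (e_pos_iff P t).2 ((h1 t).1 ht)
  omega

/-- one point of the fibre -/
theorem ram_ge {t : ℂ} (ht : (S.al P).IsRoot t) : S.e P t - 1 ≤ S.Ram P := by
  obtain ⟨R, h1, h2, -, -⟩ := n4_ram S P
  rw [h2]
  exact Finset.single_le_sum (f := fun t => S.e P t - 1) (fun _ _ => Nat.zero_le _) ((h1 t).2 ht)

/-- two points of the fibre -/
theorem ram_ge2 {t t' : ℂ} (ht : (S.al P).IsRoot t) (ht' : (S.al P).IsRoot t') (hne : t ≠ t') :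
    (S.e P t - 1) + (S.e P t' - 1) ≤ S.Ram P := by
  classical
  obtain ⟨R, h1, h2, -, -⟩ := n4_ram S P
  rw [h2, ← Finset.sum_pair (f := fun t => S.e P t - 1) hne]
  refine Finset.sum_le_sum_of_subset ?_
  intro u hu
  simp only [Finset.mem_insert, Finset.mem_singleton] at hu
  rcases hu with rfl | rfl
  · exact (h1 _).2 ht
  · exact (h1 _).2 ht'

/-- unramified fibre -/
theorem ram_zero (h : S.Ram P = 0) {t : ℂ} (ht : (S.al P).IsRoot t) : S.e P t = 1 := by
  have h1 := ram_ge ht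
  have h2 := (e_pos_iff P t).2 ht
  omega

/-- simply ramified fibre -/
theorem ram_one {v : ℂ} (h : S.Ram (some v) = 1) :
    ∃ t : ℂ, S.e (some v) t = 2 ∧
      (∀ t', (S.al (some v)).IsRoot t' → t' ≠ t → S.e (some v) t' = 1) ∧
      S.Adm (some v) 2 := by
  obtain ⟨R, h1, h2, -, -⟩ := n4_ram S (some v)
  rw [h] at h2
  obtain ⟨t, htR, ht0⟩ : ∃ t ∈ R, S.e (some v) t - 1 ≠ 0 := by
    by_contra hcon
    push Not at hcon
    rw [Finset.sum_eq_zero hcon] at h2
    omega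
  have ht := (h1 t).1 htR
  have h3 := ram_ge ht
  rw [h] at h3
  have he : S.e (some v) t = 2 := by omega
  have hoth : ∀ t', (S.al (some v)).IsRoot t' → t' ≠ t → S.e (some v) t' = 1 := by
    intro t' ht' hne
    have h4 := ram_ge2 ht ht' hne.symm
    have h5 := (e_pos_iff (some v) t').2 ht'
    rw [h] at h4
    omega
  refine ⟨t, he, hoth, by norm_num, ?_, ?_⟩
  · intro u hu
    by_cases hut : u = t
    · rw [hut, he]
    · rw [hoth u hu hut]
      norm_num
  · intro h0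
    exact absurd h0 (by simp)

/-- a fibre of four sheets with `Ram = 2`: types `(2, 2)` and `(3, 1)` -/
theorem ram_two (hn : S.n = 4) {v : ℂ} (h : S.Ram (some v) = 2) :
    (∃ t t' : ℂ, t ≠ t' ∧ S.e (some v) t = 2 ∧ S.e (some v) t' = 2 ∧
      (∀ u, (S.al (some v)).IsRoot u → u = t ∨ u = t') ∧ S.Adm (some v) 2) ∨
    (∃ t t' : ℂ, t ≠ t' ∧ S.e (some v) t = 3 ∧ S.e (some v) t' = 1 ∧
      (∀ u, (S.al (some v)).IsRoot u → u = t ∨ u = t') ∧ S.Adm (some v) 3) := by
  classical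
  obtain ⟨R, h1, -, h3, h4⟩ := n4_ram S (some v)
  rw [h, if_neg (by simp), hn] at h4
  obtain ⟨t, t', hne, hR⟩ := Finset.card_eq_two.1 (show R.card = 2 by omega)
  rw [if_neg (by simp), hn, hR, Finset.sum_pair hne] at h3
  have ht : (S.al (some v)).IsRoot t := (h1 t).1 (by rw [hR]; simp)
  have ht' : (S.al (some v)).IsRoot t' := (h1 t').1 (by rw [hR]; simp)
  have e1 := (e_pos_iff (some v) t).2 ht
  have e2 := (e_pos_iff (some v) t').2 ht'
  have hu : ∀ u, (S.al (some v)).IsRoot u → u = t ∨ u = t' := by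
    intro u hu
    have h5 := (h1 u).2 hu
    rw [hR] at h5
    simpa using h5
  have hadm : ∀ N : ℕ, 0 < N → S.e (some v) t ∣ N → S.e (some v) t' ∣ N →
      S.Adm (some v) N := by
    intro N hN h6 h7
    refine ⟨hN, ?_, fun h0 => absurd h0 (by simp)⟩
    intro u hu'
    rcases hu u hu' with rfl | rfl
    · exact h6
    · exact h7
  rcases (show (S.e (some v) t = 1 ∧ S.e (some v) t' = 3) ∨
    (S.e (some v) t = 2 ∧ S.e (some v) t' = 2) ∨
    (S.e (some v) t = 3 ∧ S.e (some v) t' = 1) by omega) with ⟨a, b⟩ | ⟨a, b⟩ | ⟨a, b⟩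
  · right
    exact ⟨t', t, hne.symm, b, a, fun u h => (hu u h).symm,
      hadm 3 (by norm_num) (by rw [a]; norm_num) (by rw [b])⟩
  · left
    exact ⟨t, t', hne, a, b, hu, hadm 2 (by norm_num) (by rw [a]) (by rw [b])⟩
  · right
    exact ⟨t, t', hne, a, b, hu, hadm 3 (by norm_num) (by rw [a]) (by rw [b]; norm_num)⟩

/-- a fibre of four sheets with `Ram = 3` is totally ramified -/
theorem ram_le_two (hn : S.n = 4) {v : ℂ} (h : ∀ t, S.e (some v) t < 4) :
    S.Ram (some v) ≤ 2 := by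
  classical
  obtain ⟨R, h1, -, h3, h4⟩ := n4_ram S (some v)
  rw [if_neg (by simp), hn] at h3 h4
  rcases Nat.lt_or_ge 1 R.card with h5 | h5
  · omega
  · exfalso
    rcases (show R.card = 0 ∨ R.card = 1 by omega) with h6 | h6
    · rw [Finset.card_eq_zero.1 h6, Finset.sum_empty] at h3
      omega
    · obtain ⟨t, ht⟩ := Finset.card_eq_one.1 h6
      rw [ht, Finset.sum_singleton] at h3
      have := h t
      omega

/-- the totally ramified fibre -/
theorem ram_four (hn : S.n = 4) {v t : ℂ} (h : S.e (some v) t = 4) :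
    (∀ u, (S.al (some v)).IsRoot u → u = t) ∧ S.Adm (some v) 4 ∧ S.Ram (some v) = 3 := by
  classical
  obtain ⟨R, h1, h2, h3, h4⟩ := n4_ram S (some v)
  rw [if_neg (by simp), hn] at h3 h4
  have ht : (S.al (some v)).IsRoot t := (e_pos_iff (some v) t).1 (by omega)
  have hu : ∀ u, (S.al (some v)).IsRoot u → u = t := by
    intro u hu
    by_contra hne
    have e1 := (e_pos_iff (some v) u).2 hu
    have h5 : ∑ w ∈ ({t, u} : Finset ℂ), S.e (some v) w ≤ ∑ w ∈ R, S.e (some v) w := by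
      refine Finset.sum_le_sum_of_subset ?_
      intro w hw
      simp only [Finset.mem_insert, Finset.mem_singleton] at hw
      rcases hw with rfl | rfl
      · exact (h1 _).2 ht
      · exact (h1 _).2 hu
    rw [Finset.sum_pair (Ne.symm hne)] at h5
    omega
  refine ⟨hu, ⟨by norm_num, fun u hu' => ?_, fun h0 => absurd h0 (by simp)⟩, ?_⟩
  · rw [hu u hu', h]
  · have hR : R = {t} := by
      ext u
      rw [h1, Finset.mem_singleton]
      exact ⟨hu u, fun h => h ▸ ht⟩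
    rw [h2, hR, Finset.sum_singleton, h]

/-- the finite part of the fibre at infinity has `k` sheets -/
theorem ram_inf (S : Cur) : S.Ram none + 1 ≤ S.k := by
  obtain ⟨R, h1, h2, h3, h4⟩ := n4_ram S none
  rw [if_pos rfl] at h3 h4
  have hk := S.hk
  rcases Nat.eq_zero_or_pos R.card with h5 | h5
  · rw [Finset.card_eq_zero.1 h5, Finset.sum_empty] at h3
    omega
  · omega

end Cur

end WR
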