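import Pool.Agent.helper65.N4.P

/-!
# N4-B: `k = 1`, no totally ramified finite place, a cusp: `m ≤ 6`

Proof. Let `t` be the cusp, `P` its place (`cusp_over`), `2 ≤ S.e P t` (`cusp_e`). `P = none` is
impossible: `ram_ge` and `ram_inf` give `1 ≤ Ram none ≤ k - 1 = 0`. So `P = some v`, `1 ≤ Ram (some v)`
(`ram_ge`) and `Ram (some v) ≤ 2` (`ram_le_two`).
Choose `N Q := 24` for `Q ≠ some v` (`adm_factorial`, `24 = Nat.factorial S.n`) and `N (some v) := N₀` with
`N₀ = 2` if `Ram (some v) = 1` and `N₀ = 24` if `Ram (some v) = 2`. In both cases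
`(*) 5 S2 - 18 Ram + 9 ≤ S3` at `some v`: `Ram = 1`: `ram_one` gives `u` with `e = 2`, the others `1`,
`Adm 2`, and `u = t` (as `e t ≥ 2`); `x2` gives `o ≥ 3`, `S2 = o`, `S3 ≥ 12 (o/2 - 1) = 6 o - 12 ≥ 5 o - 9`.
`Ram = 2`: `n4P`: `S3 ≥ 5 S2 - 24 ≥ 5 S2 - 36 + 9`.
`glob4 hn N hN {v}` gives `V ∋ v`; `F1a` at the other points of `V` (`Finset.sum_erase` or
`Finset.add_sum_erase`), `I1a` at infinity (`k = 1`, `col = 0` by `nocol4`):
`5 S2 - 24 - 18 Ram + 4 m ≤ S3`; `ram_le V`: `∑ Ram + Ram none ≤ 4`. Sum: `60 + 9 - 24 - 72 + 4 m ≤ 0`, so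
`4 m ≤ 27`, `m ≤ 6`.
-/

namespace WR

open Polynomial

namespace Cur

theorem n4B (S : Cur) (hn : S.n = 4) (hk : S.k = 1) (h : ∀ v t : ℂ, S.e (some v) t < 4)
    (hc : ∃ t : ℂ, S.IsCusp t) : S.m ≤ 6 := by
  classical
  obtain ⟨t, ht⟩ := hc
  obtain ⟨P, hP⟩ := cusp_over (S := S) t
  have he : 2 ≤ S.e P t := cusp_e hP ht
  have hR := ram_ge hP
  rcases P with _ | v
  · exfalso
    have h1 := ram_inf S
    omega
  have hlt : ∀ w u, S.e (some w) u < S.n := fun w u => by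
    rw [hn]
    exact h w u
  have hR2 := ram_le_two hn (h v)
  -- the place of the cusp
  obtain ⟨N₀, hN₀, hstar⟩ : ∃ N₀ : ℕ, S.Adm (some v) N₀ ∧
      5 * S.S2 (some v) N₀ - 18 * (S.Ram (some v) : ℚ) + 9 ≤ S.S3 (some v) N₀ := by
    rcases (by omega : S.Ram (some v) = 1 ∨ S.Ram (some v) = 2) with h1 | h1
    · obtain ⟨u, hu, hu1, hA⟩ := ram_one h1
      have htu : t = u := by
        by_contra hne
        have := hu1 t hP hne
        omega
      subst htu
      obtain ⟨o, ho, -, hS2, hS3, -⟩ := x2 hA hu hu1 ht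
      refine ⟨2, hA, ?_⟩
      rw [h1, hS2]
      rw [hn] at hS3
      have ho' : (3 : ℚ) ≤ o := by exact_mod_cast ho
      push_cast at hS3 ⊢
      linarith
    · refine ⟨S.n.factorial, S.adm_factorial (some v), ?_⟩
      have h2 := n4P hn (S.adm_factorial (some v)) h1
      rw [h1]
      push_cast
      linarith
  -- the global formulas
  set N : Option ℂ → ℕ := fun Q => if Q = some v then N₀ else S.n.factorial with hNdef
  have hNv : N (some v) = N₀ := by rw [hNdef]; simp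
  have hNw : ∀ Q, Q ≠ some v → N Q = S.n.factorial := fun Q hQ => by
    rw [hNdef]
    simp [hQ]
  have hN : ∀ Q, S.Adm Q (N Q) := fun Q => by
    by_cases hQ : Q = some v
    · rw [hQ, hNv]
      exact hN₀
    · rw [hNw Q hQ]
      exact S.adm_factorial Q
  obtain ⟨V, hV, h2, h3⟩ := glob4 hn N hN {v}
  have hvV : v ∈ V := hV (Finset.mem_singleton_self v)
  have hI := I1a (hN none)
  rw [nocol4 hn (hN none), hn, hk] at hI
  have hF : ∑ w ∈ V.erase v, (5 * S.S2 (some w) (N (some w)) - 18 * (S.Ram (some w) : ℚ)) ≤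
      ∑ w ∈ V.erase v, S.S3 (some w) (N (some w)) := by
    refine Finset.sum_le_sum fun w _ => ?_
    have h4 := F1a (hN (some w)) (hlt w)
    rw [hn] at h4
    push_cast at h4
    linarith
  rw [Finset.sum_sub_distrib, ← Finset.mul_sum, ← Finset.mul_sum] at hF
  have hram := S.ram_le V
  rw [hn, hk, ← Finset.add_sum_erase V _ hvV] at hram
  have hram' : (S.Ram (some v) : ℚ) + ∑ w ∈ V.erase v, (S.Ram (some w) : ℚ) +
      (S.Ram none : ℚ) ≤ 4 := by exact_mod_cast hram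
  rw [← Finset.add_sum_erase V _ hvV, hNv] at h2 h3
  push_cast at hI
  have hm : 4 * (S.m : ℚ) ≤ 27 := by linarith
  have hm' : 4 * S.m ≤ 27 := by exact_mod_cast hm
  omega

end Cur

end WR
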