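import Pool.Agent.helper65.N4.J

/-!
# N4-C: `k = 3`, a totally ramified finite place: `m ≤ 7`

Proof. `ram_four hn he`: `Adm (some v₁) 4`. Choose `N (some v₁) := 4`, `N Q := 24` otherwise (`adm_factorial`).
`glob4 hn N hN {v₁}`: `V ∋ v₁`. `F2int` at `v₁` with `N = 4`, `col = 0` (`nocol4`): `4 S2 - 22 ≤ S3`.
`F1b` at the other points of `V`: `4 S2 - 18 Ram ≤ S3`. `n4J` at infinity: `4 S2 + 6 m - 18 - 18 Ram ≤ S3`.
`ram_le_tot (he : S.e (some v₁) t₁ = S.n) (V.erase v₁)`: `∑ Ram + Ram none ≤ k = 3`.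
Sum: `48 - 22 - 54 + 6 m - 18 ≤ 0`: `6 m ≤ 46`, `m ≤ 7`.
-/

namespace WR

open Polynomial

namespace Cur

theorem n4C (S : Cur) (hn : S.n = 4) (hk : S.k = 3) {v₁ t₁ : ℂ} (he : S.e (some v₁) t₁ = 4) :
    S.m ≤ 7 := by
  classical
  obtain ⟨-, hA4, -⟩ := ram_four hn he
  obtain ⟨N, hN1, hN2⟩ : ∃ N : Option ℂ → ℕ, N (some v₁) = 4 ∧ ∀ Q, S.Adm Q (N Q) := by
    refine ⟨fun Q => if Q = some v₁ then 4 else Nat.factorial S.n, by simp, fun Q => ?_⟩
    by_cases hQ : Q = some v₁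
    · subst hQ
      simpa using hA4
    · simpa [hQ] using S.adm_factorial Q
  obtain ⟨V, hV, h2, h3⟩ := glob4 hn N hN2 {v₁}
  have hv : v₁ ∈ V := hV (Finset.mem_singleton_self _)
  have hnq : (S.n : ℚ) = 4 := by exact_mod_cast hn
  -- the totally ramified place
  have hF2 : 4 * S.S2 (some v₁) (N (some v₁)) - 22 ≤ S.S3 (some v₁) (N (some v₁)) := by
    have h := F2int (hN2 (some v₁))
    rw [nocol4 hn (hN2 (some v₁)), hnq, hN1] at h
    rw [hN1]
    norm_num at h ⊢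
    linarith
  -- the other finite places
  have hF1 : ∀ v ∈ V.erase v₁, 4 * S.S2 (some v) (N (some v)) - 18 * (S.Ram (some v) : ℚ) ≤
      S.S3 (some v) (N (some v)) := by
    intro v _
    have h := F1b (hN2 (some v))
    rw [hnq] at h
    linarith
  have hsum := Finset.sum_le_sum hF1
  rw [Finset.sum_sub_distrib, ← Finset.mul_sum, ← Finset.mul_sum] at hsum
  -- infinity
  have hJ := n4J hn hk (hN2 none)
  -- ramification
  have hR := ram_le_tot (S := S) (v₁ := v₁) (t₁ := t₁) (by rw [he, hn]) (V.erase v₁)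
    (Finset.notMem_erase _ _)
  rw [hk] at hR
  have hRq : ∑ v ∈ V.erase v₁, (S.Ram (some v) : ℚ) + (S.Ram none : ℚ) ≤ 3 := by
    exact_mod_cast hR
  rw [← Finset.add_sum_erase V _ hv] at h2 h3
  have hm : (S.m : ℚ) < 8 := by linarith
  have : S.m < 8 := by exact_mod_cast hm
  omega

end Cur

end WR
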