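import Pool.Agent.helper65.N4.Glb

/-!
# N4-S: a simply ramified finite place with `N = 2`, `n = 4`

`ram_one hR`: `t` with `e = 2`, the other roots have `e = 1`, `Adm (some v) 2`. `lab2` with
`p := fun τ => cen τ = some t` (`card_cen`): `x₀, x₁` with centre `some t`; `x₂, x₃` have other centres
`some t₂`, `some t₃` (`X2_cen`), `t₂ ≠ t₃` (`X2_uniq`). `rho_diff`: `ρ = 0` except `ρ01`; `class_prime`
(`N = 2`): `ρ01 = B / 2`, `B` odd, `(S.y _ x₀).coeff B ≠ 0`; `X2_y`: `Ge (y x₀) 0`, so `0 ≤ B`, `1 ≤ B`.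
`Lab.S2`: `S2 = B`. `n4_tri`: `om 012, om 013 ≥ ρ01 - 1 = B / 2 - 1`; `n4_fin`: `om 023, om 123 ≥ - 1 / 2`
(`e = 2, 1, 1`). `Lab.S3`: `S3 ≥ 6 (B - 2 - 1) = 6 B - 18`.
-/

namespace WR

open Polynomial

namespace Cur

theorem n4S {S : Cur} (hn : S.n = 4) {v : ℂ} (hR : S.Ram (some v) = 1) :
    S.Adm (some v) 2 ∧ ∃ B : ℤ, 1 ≤ B ∧ ¬ (2 : ℤ) ∣ B ∧ S.S2 (some v) 2 = B ∧
      6 * (B : ℚ) - 18 ≤ S.S3 (some v) 2 := by
  classical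
  obtain ⟨t, he, h1, hN⟩ := ram_one hR
  refine ⟨hN, ?_⟩
  have hcard := S.card_cen (some v) hN t
  rw [he] at hcard
  obtain ⟨x₀, x₁, x₂, x₃, L, p0, p1, p2, p3⟩ := lab2 hn hN (fun τ => cen τ = some t)
    (by convert hcard)
  have p0 : cen x₀ = some t := p0
  have p1 : cen x₁ = some t := p1
  have p2 : cen x₂ ≠ some t := p2
  have p3 : cen x₃ ≠ some t := p3
  obtain ⟨t₂, c2⟩ := X2_cen hN.1 L.m2
  obtain ⟨t₃, c3⟩ := X2_cen hN.1 L.m3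
  have n2 : t₂ ≠ t := fun h => p2 (by rw [c2, h])
  have n3 : t₃ ≠ t := fun h => p3 (by rw [c3, h])
  have n23 : t₂ ≠ t₃ := fun h => L.n23 (X2_uniq hN h1 L.m2 L.m3 c2 (by rw [c3, h]) n2)
  obtain ⟨B, hB, hB0, hBl, hBr⟩ := class_prime hN Nat.prime_two L.m0 (by rw [p0]; exact hcard)
  have hB' : ¬ (2 : ℤ) ∣ B := by exact_mod_cast hB
  have r01 : S.rho (some v) 2 x₀ x₁ = (B : ℚ) / 2 := by
    have := hBr x₀ L.m0 x₁ L.m1 L.n01 rfl (p1.trans p0.symm)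
    exact_mod_cast this
  have hB1 : 1 ≤ B := by
    have h0 : 0 ≤ B := by
      by_contra hneg
      exact hB0 (X2_y hN.1 L.m0 B (by omega))
    omega
  have r02 := rho_diff hN.1 L.m0 L.m2 p0 c2 n2.symm
  have r03 := rho_diff hN.1 L.m0 L.m3 p0 c3 n3.symm
  have r12 := rho_diff hN.1 L.m1 L.m2 p1 c2 n2.symm
  have r13 := rho_diff hN.1 L.m1 L.m3 p1 c3 n3.symm
  have r23 := rho_diff hN.1 L.m2 L.m3 c2 c3 n23
  refine ⟨B, hB1, hB', ?_, ?_⟩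
  · rw [L.S2, r01, r02, r03, r12, r13, r23]
    ring
  · have o1 := (n4_tri hn hN L.m0 L.m1 L.m2 L.n01 L.n02 L.n12).1
    have o2 := (n4_tri hn hN L.m0 L.m1 L.m3 L.n01 L.n03 L.n13).1
    have o3 := n4_fin hn hN L.m0 L.m2 L.m3 L.n02 L.n03 L.n23 p0 c2 c3
    have o4 := n4_fin hn hN L.m1 L.m2 L.m3 L.n12 L.n13 L.n23 p1 c2 c3
    have e2 : S.e (some v) t₂ = 1 := h1 t₂ (loc_fin hN.1 L.m2 c2).1 n2
    have e3 : S.e (some v) t₃ = 1 := h1 t₃ (loc_fin hN.1 L.m3 c3).1 n3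
    rw [r01, r02] at o1
    rw [r01, r03] at o2
    rw [he, e2, e3] at o3 o4
    rw [L.S3]
    norm_num at o3 o4
    linarith

end Cur

end WR
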