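import Pool.Agent.helper65.N4.Glb

/-!
# N4-T: a finite place with `Ram = 2` and a cusp, `n = 4`
-/

namespace WR

open Polynomial

namespace Cur

open Classical in
/-- the class of a sheet: the normalized order of the differences -/
theorem n4T_class {S : Cur} {v t : ℂ} {N : ℕ} (hN : S.Adm (some v) N) (hp : N.Prime)
    (he : S.e (some v) t = N) {x : M} (hx : x ∈ S.sh (some v) N) (hcx : cen x = some t) :
    ∃ B : ℤ, ¬ (N : ℤ) ∣ B ∧ 0 < B ∧ (S.IsCusp t → 2 ≤ B) ∧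
      ∀ τ₁ ∈ S.sh (some v) N, ∀ τ₂ ∈ S.sh (some v) N, τ₁ ≠ τ₂ → cen τ₁ = some t → cen τ₂ = some t →
        S.rho (some v) N τ₁ τ₂ = (B : ℚ) / N := by
  have hcard := S.card_cen (some v) hN t
  rw [he] at hcard
  obtain ⟨B, hB, hB0, -, hBr⟩ := class_prime hN hp hx (by rw [hcx]; exact hcard)
  have h0 : 0 ≤ B := by
    by_contra hneg
    exact hB0 (X2_y hN.1 hx B (by omega))
  have h1 : B ≠ 0 := by
    rintro rfl
    exact hB (dvd_zero _)
  refine ⟨B, hB, by omega, fun hc => ?_, ?_⟩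
  · have h2 : B ≠ 1 := by
      rintro rfl
      exact hB0 (cusp_coeff (h := 1) hN.1 hx hcx (by rw [he, mul_one]) hc one_pos (by norm_num))
    omega
  · intro τ₁ h3 τ₂ h4 hne h5 h6
    exact hBr τ₁ h3 τ₂ h4 hne (by rw [h5, hcx]) (by rw [h6, hcx])

/-- type `(2, 2)` -/
theorem n4T_22 {S : Cur} (hn : S.n = 4) {v t t' : ℂ} (hne : t ≠ t') (he : S.e (some v) t = 2)
    (he' : S.e (some v) t' = 2) (hr : ∀ u, (S.al (some v)).IsRoot u → u = t ∨ u = t')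
    (hN : S.Adm (some v) 2) (hc : S.IsCusp t) :
    4 * S.S2 (some v) 2 - S.S3 (some v) 2 ≤ 18 := by
  classical
  have hcard := S.card_cen (some v) hN t
  rw [he] at hcard
  obtain ⟨x₀, x₁, x₂, x₃, L, c0, c1, c2, c3⟩ := lab2 hn hN (fun τ => cen τ = some t)
    (by convert hcard)
  have hcen : ∀ x ∈ S.sh (some v) 2, ¬ cen x = some t → cen x = some t' := by
    intro x hx hxt
    obtain ⟨u, hu⟩ := X2_cen hN.1 hx
    rcases hr u (loc_fin hN.1 hx hu).1 with h | h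
    · exact absurd (by rw [hu, h]) hxt
    · rw [hu, h]
  have d2 := hcen x₂ L.m2 c2
  have d3 := hcen x₃ L.m3 c3
  obtain ⟨B, hB, hB0, hB2, hBr⟩ := n4T_class hN Nat.prime_two he L.m0 c0
  obtain ⟨B', hB', hB0', -, hBr'⟩ := n4T_class hN Nat.prime_two he' L.m2 d2
  have hB3 : 3 ≤ B := by
    have h1 := hB2 hc
    have h2 : B ≠ 2 := by
      rintro rfl
      exact hB (by norm_num)
    omega
  have r01 : S.rho (some v) 2 x₀ x₁ = (B : ℚ) / 2 := by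
    have := hBr x₀ L.m0 x₁ L.m1 L.n01 c0 c1
    exact_mod_cast this
  have r23 : S.rho (some v) 2 x₂ x₃ = (B' : ℚ) / 2 := by
    have := hBr' x₂ L.m2 x₃ L.m3 L.n23 d2 d3
    exact_mod_cast this
  have r02 := rho_diff hN.1 L.m0 L.m2 c0 d2 hne
  have r03 := rho_diff hN.1 L.m0 L.m3 c0 d3 hne
  have r12 := rho_diff hN.1 L.m1 L.m2 c1 d2 hne
  have r13 := rho_diff hN.1 L.m1 L.m3 c1 d3 hne
  have o012 := (n4_tri hn hN L.m0 L.m1 L.m2 L.n01 L.n02 L.n12).1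
  have o013 := (n4_tri hn hN L.m0 L.m1 L.m3 L.n01 L.n03 L.n13).1
  have o023 := (n4_tri hn hN L.m0 L.m2 L.m3 L.n02 L.n03 L.n23).2.1
  have o123 := (n4_tri hn hN L.m1 L.m2 L.m3 L.n12 L.n13 L.n23).2.1
  rw [r01, r02] at o012
  rw [r01, r03] at o013
  rw [r02, r23] at o023
  rw [r12, r23] at o123
  have h3 : (3 : ℚ) ≤ (B : ℚ) := by exact_mod_cast hB3
  have h4 : (1 : ℚ) ≤ (B' : ℚ) := by exact_mod_cast hB0'
  rw [L.S2, L.S3, r01, r02, r03, r12, r13, r23]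
  linarith

/-- type `(3, 1)` -/
theorem n4T_31 {S : Cur} (hn : S.n = 4) {v t t' : ℂ} (hne : t ≠ t') (he : S.e (some v) t = 3)
    (hr : ∀ u, (S.al (some v)).IsRoot u → u = t ∨ u = t')
    (hN : S.Adm (some v) 3) (hc : S.IsCusp t) :
    4 * S.S2 (some v) 3 - S.S3 (some v) 3 ≤ 18 := by
  classical
  have hcard := S.card_cen (some v) hN t
  rw [he] at hcard
  obtain ⟨x₀, x₁, x₂, x₃, L, c0, c1, c2, c3⟩ := lab3 hn hN (fun τ => cen τ = some t)
    (by convert hcard)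
  have d3 : cen x₃ = some t' := by
    obtain ⟨u, hu⟩ := X2_cen hN.1 L.m3
    rcases hr u (loc_fin hN.1 L.m3 hu).1 with h | h
    · exact absurd (by rw [hu, h]) c3
    · rw [hu, h]
  obtain ⟨A, hA, hA0, hA2, hAr⟩ := n4T_class hN Nat.prime_three he L.m0 c0
  have r01 : S.rho (some v) 3 x₀ x₁ = (A : ℚ) / 3 := by
    have := hAr x₀ L.m0 x₁ L.m1 L.n01 c0 c1
    exact_mod_cast this
  have r02 : S.rho (some v) 3 x₀ x₂ = (A : ℚ) / 3 := by
    have := hAr x₀ L.m0 x₂ L.m2 L.n02 c0 c2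
    exact_mod_cast this
  have r12 : S.rho (some v) 3 x₁ x₂ = (A : ℚ) / 3 := by
    have := hAr x₁ L.m1 x₂ L.m2 L.n12 c1 c2
    exact_mod_cast this
  have r03 := rho_diff hN.1 L.m0 L.m3 c0 d3 hne
  have r13 := rho_diff hN.1 L.m1 L.m3 c1 d3 hne
  have r23 := rho_diff hN.1 L.m2 L.m3 c2 d3 hne
  have o012 := n4_eq hn hN L.m0 L.m1 L.m2 L.n01 L.n02 L.n12 (by rw [r01, r02])
  have o013 := (n4_tri hn hN L.m0 L.m1 L.m3 L.n01 L.n03 L.n13).1
  have o023 := (n4_tri hn hN L.m0 L.m2 L.m3 L.n02 L.n03 L.n23).1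
  have o123 := (n4_tri hn hN L.m1 L.m2 L.m3 L.n12 L.n13 L.n23).1
  rw [r01] at o012
  rw [r01, r03] at o013
  rw [r02, r03] at o023
  rw [r12, r13] at o123
  have h3 : (2 : ℚ) ≤ (A : ℚ) := by exact_mod_cast hA2 hc
  push_cast at o012
  rw [L.S2, L.S3, r01, r02, r03, r12, r13, r23]
  linarith

theorem n4T {S : Cur} (hn : S.n = 4) {v t : ℂ} (hR : S.Ram (some v) = 2)
    (ht : (S.al (some v)).IsRoot t) (hc : S.IsCusp t) :
    ∃ N : ℕ, S.Adm (some v) N ∧ 4 * S.S2 (some v) N - S.S3 (some v) N ≤ 18 := by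
  have he := cusp_e ht hc
  rcases ram_two hn hR with ⟨t₁, t₂, hne, h1, h2, hr, hN⟩ | ⟨t₁, t₂, hne, h1, h2, hr, hN⟩
  · refine ⟨2, hN, ?_⟩
    rcases hr t ht with rfl | rfl
    · exact n4T_22 hn hne h1 h2 hr hN hc
    · exact n4T_22 hn hne.symm h2 h1 (fun u hu => (hr u hu).symm) hN hc
  · refine ⟨3, hN, ?_⟩
    rcases hr t ht with rfl | rfl
    · exact n4T_31 hn hne h1 hr hN hc
    · omega

end Cur

end WR
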