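import Pool.Agent.helper65.N4.Glb

/-!
# N4-V: the totally ramified place, `n = 4`

`ram_four`: `Adm (some v) 4`. Copy the proof of `Fine4_v1` in `WR/Fine4.lean` (with `class_four`, which also gives
`¬ 2 ∣ B₂` and the vanishing of the odd coefficients below `B₂`): if `B₁ < B₂` and `B₁` is odd, then the
coefficient at `B₁` is `0`, contradiction; so `2 ∣ B₁`. (`Fine4_v1` itself gives everything else, but hides
that its `B₂` is odd, so repeat it.) `col = 0` is `nocol4`; a sheet exists since `card_cen` gives `4` sheets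
with centre `some t`.
-/

namespace WR

open Polynomial

namespace Cur

open Classical in
theorem n4V_v1 {S : Cur} {P : Option ℂ} (hN : S.Adm P 4) (hcol : S.col P 4 = 0) {τ : M}
    (hτ : τ ∈ S.sh P 4) (hc : ((S.sh P 4).filter (fun τ' => cen τ' = cen τ)).card = 4)
    (hcard : (S.sh P 4).card = 4) :
    ∃ B₁ B₂ : ℤ, B₁ ≤ B₂ ∧ ¬ (2 : ℤ) ∣ B₂ ∧ (B₁ < B₂ → (2 : ℤ) ∣ B₁) ∧
      S.S2 P 4 = 2 * B₁ + B₂ ∧ 6 * ((B₁ : ℚ) + B₂) - 24 ≤ S.S3 P 4 ∧
      (B₁ = B₂ → 12 * (B₁ : ℚ) - 18 ≤ S.S3 P 4) := by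
  have h4 : 0 < 4 := by norm_num
  obtain ⟨B₁, B₂, hB, -, hodd, hc1, -, -, hm2, τ₀, τ₁, τ₂, τ₃, hf, r02, r13, r01, r03, r12, r23⟩ :=
    class_four hN hτ hc
  have hsub : S.sh P 4 = ({τ₀, τ₁, τ₂, τ₃} : Finset M) := by
    rw [← hf]
    exact (Finset.eq_of_subset_of_card_le (Finset.filter_subset _ _) (by rw [hc, hcard])).symm
  have hcd : ({τ₀, τ₁, τ₂, τ₃} : Finset M).card = 4 := by rw [← hsub, hcard]
  obtain ⟨n01, n02, n03, n12, n13, n23⟩ := Fine4_ne hcd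
  refine ⟨B₁, B₂, hB, hodd, fun hlt => ?_, ?_, ?_, ?_⟩
  · by_contra h2
    exact hc1 (hm2 B₁ hlt h2)
  · unfold S2
    rw [hsub, Fine4_sum2_four n01 n02 n03 n12 n13 n23 _ (fun i j => rho_symm), r01, r02, r03, r12,
      r13, r23]
    ring
  · have h5 := Fine4_sum3_const (S.sh P 4) (((B₁ : ℚ) + B₂) / 4 - 1)
    rw [hcard] at h5
    have h6 : sum3 (S.sh P 4) (fun _ _ _ => ((B₁ : ℚ) + B₂) / 4 - 1) ≤ S.S3 P 4 := by
      refine Fine4_sum3_le fun i hi j hj l hl hij hil hjl => ?_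
      obtain ⟨a1, a2, a3⟩ := Fine4_naive h4 hcol hi hj hl hij hil hjl
      rw [hsub] at hi hj hl
      have r10 : S.rho P 4 τ₁ τ₀ = (B₁ : ℚ) / 4 := by rw [rho_symm, r01]
      have r20 : S.rho P 4 τ₂ τ₀ = (B₂ : ℚ) / 4 := by rw [rho_symm, r02]
      have r30 : S.rho P 4 τ₃ τ₀ = (B₁ : ℚ) / 4 := by rw [rho_symm, r03]
      have r21 : S.rho P 4 τ₂ τ₁ = (B₁ : ℚ) / 4 := by rw [rho_symm, r12]
      have r31 : S.rho P 4 τ₃ τ₁ = (B₂ : ℚ) / 4 := by rw [rho_symm, r13]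
      have r32 : S.rho P 4 τ₃ τ₂ = (B₁ : ℚ) / 4 := by rw [rho_symm, r23]
      simp only [Finset.mem_insert, Finset.mem_singleton] at hi hj hl
      rcases hi with rfl | rfl | rfl | rfl <;> rcases hj with rfl | rfl | rfl | rfl <;>
        first
          | exact absurd rfl hij
          | (rcases hl with rfl | rfl | rfl | rfl <;>
              first
                | exact absurd rfl hil
                | exact absurd rfl hjl
                | linarith)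
    push_cast at h5
    linarith
  · intro hBB
    have h5 := Fine4_sum3_const (S.sh P 4) ((B₁ : ℚ) / 2 - 3 / 4)
    rw [hcard] at h5
    have h6 : sum3 (S.sh P 4) (fun _ _ _ => (B₁ : ℚ) / 2 - 3 / 4) ≤ S.S3 P 4 := by
      refine Fine4_sum3_le fun i hi j hj l hl hij hil hjl => ?_
      have hW := Fine4_W hcol hi hj hl hij hil hjl
      have ha := om_eq h4 hi hj hl hij hil hjl hW
      rw [hsub] at hi hj hl
      have r10 : S.rho P 4 τ₁ τ₀ = (B₁ : ℚ) / 4 := by rw [rho_symm, r01]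
      have r20 : S.rho P 4 τ₂ τ₀ = (B₂ : ℚ) / 4 := by rw [rho_symm, r02]
      have r30 : S.rho P 4 τ₃ τ₀ = (B₁ : ℚ) / 4 := by rw [rho_symm, r03]
      have r21 : S.rho P 4 τ₂ τ₁ = (B₁ : ℚ) / 4 := by rw [rho_symm, r12]
      have r31 : S.rho P 4 τ₃ τ₁ = (B₂ : ℚ) / 4 := by rw [rho_symm, r13]
      have r32 : S.rho P 4 τ₃ τ₂ = (B₁ : ℚ) / 4 := by rw [rho_symm, r23]
      rw [← hBB] at r02 r13 r20 r31
      have hall : ∀ x ∈ ({τ₀, τ₁, τ₂, τ₃} : Finset M), ∀ y ∈ ({τ₀, τ₁, τ₂, τ₃} : Finset M),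
          x ≠ y → S.rho P 4 x y = (B₁ : ℚ) / 4 := by
        intro x hx y hy hxy
        simp only [Finset.mem_insert, Finset.mem_singleton] at hx hy
        rcases hx with rfl | rfl | rfl | rfl <;> rcases hy with rfl | rfl | rfl | rfl <;>
          first
            | exact absurd rfl hxy
            | assumption
      rw [hall i hi j hj hij, hall i hi l hl hil] at ha
      have hb := ha rfl
      push_cast at hb
      linarith
    push_cast at h5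
    linarith

theorem n4V {S : Cur} (hn : S.n = 4) {v t : ℂ} (he : S.e (some v) t = 4) :
    ∃ B₁ B₂ : ℤ, B₁ ≤ B₂ ∧ ¬ (2 : ℤ) ∣ B₂ ∧ (B₁ < B₂ → (2 : ℤ) ∣ B₁) ∧
      S.S2 (some v) 4 = 2 * B₁ + B₂ ∧ 6 * ((B₁ : ℚ) + B₂) - 24 ≤ S.S3 (some v) 4 ∧
      (B₁ = B₂ → 12 * (B₁ : ℚ) - 18 ≤ S.S3 (some v) 4) := by
  obtain ⟨-, hN, -⟩ := ram_four hn he
  have hcard : (S.sh (some v) 4).card = 4 := by
    rw [S.sh_card (some v) hN, hn]
  have hc := S.card_cen (some v) hN t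
  rw [he] at hc
  obtain ⟨τ, hτ⟩ := Finset.card_ne_zero.1 (hc.trans_ne (by norm_num))
  obtain ⟨hτ1, hτ2⟩ := Finset.mem_filter.1 hτ
  rw [← hτ2] at hc
  exact n4V_v1 hN (nocol4 hn hN) hτ1 hc hcard

end Cur

end WR
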