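import Pool.Agent.helper65.N4.I
import Pool.Agent.helper65.N4.V
import Pool.Agent.helper65.N4.S
import Pool.Agent.helper65.N4.T

/-!
# N4-D: `k = 2`, a totally ramified finite place, two cusps: `m ≤ 7`

Write `D Q := 4 S2 - S3` at the place `Q` (for the chosen `N Q`). By `glob4`, the sum of all `D Q` is `48`.
`n4V` at `v₁` (`N = 4`): `D ≤ 22` (`B₁ < B₂`: `24 - 2 (B₂ - B₁)`; `B₁ = B₂`: `18`). `n4I` at infinity (`N = 2`):
`D ≤ 24 - 4 m - 2 β - 4 r ≤ 22 - 2 m` if `- m < β`, `D ≤ 18 - 2 m` if `β = - m`. `F1b`: `D ≤ 18 Ram` at every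
finite place (any `N`), in particular `D ≤ 0` if `Ram = 0`. `ram_le_tot` (`he : S.e (some v₁) t₁ = S.n`):
`∑ Ram + Ram none ≤ 2` over the other places. One of the two cusps is `≠ t₁`, call it `t`; its place is not
`v₁` (`ram_four`: only `t₁` lies over `v₁`); `cusp_over`, `cusp_e`, `ram_ge`: its `Ram` is `≥ 1`.
(A) `t` over infinity: `1 ≤ Ram none`, the rest has `∑ Ram ≤ 1`, `D ≤ 18` together:
`48 ≤ 22 + 22 - 2 m + 18`, `m ≤ 7`.
(B2) `t` over `v₂`, `Ram (some v₂) = 2`: the rest has `Ram = 0`, `n4T` with its `N`: `48 ≤ 22 + 22 - 2 m + 18`.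
(B1) `t` over `v₂`, `Ram (some v₂) = 1`: `ram_one`, `x2` (`N = 2`): `o ≥ 3` odd, `S2 = o`, `S3 ≥ 6 o - 12`,
`D ≤ 12 - 2 o ≤ 6`. If no other finite place has `Ram > 0`: `48 ≤ 22 + 22 - 2 m + 6`, impossible. Otherwise
there is exactly one, `v₃`, with `Ram = 1`, and `Ram none = 0`, `r = 0`; `n4S` at `v₃` (`N = 2`): `B₃ ≥ 1` odd,
`S2 = B₃`, `S3 ≥ 6 B₃ - 18`. At the places with `Ram = 0`: `S2 = 0` (`S2_unram`) and `0 ≤ S3` (`F1b`). So, over
the integers, `2 B₁ + B₂ + o + B₃ + β - 4 m = 12` and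
`(6 (B₁ + B₂) - 24) + (6 β - 12 m - 24) + (6 o - 12) + (6 B₃ - 18) ≤ 0`, with the first bracket replaced by
`12 B₁ - 18` if `B₁ = B₂` and the second by `- 18 m - 18` if `β = - m`. `omega` in each of the four cases
(assume `8 ≤ m`; `B₁ < B₂`, `- m < β` uses the parities: it forces `m = 8`, `β = -7`, `B₁ ≥ 15` even,
`3 B₁ + 5 ≤ 51`).
-/

namespace WR

open Polynomial

namespace Cur

theorem n4D_v {S : Cur} (hn : S.n = 4) {v t : ℂ} (he : S.e (some v) t = 4) :
    4 * S.S2 (some v) 4 - S.S3 (some v) 4 ≤ 22 := by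
  obtain ⟨B₁, B₂, h1, h2, h3, h4, h5, h6⟩ := n4V hn he
  rcases lt_or_eq_of_le h1 with h | h
  · have h7 : B₁ + 1 ≤ B₂ := by omega
    have h8 : (B₁ : ℚ) + 1 ≤ B₂ := by exact_mod_cast h7
    rw [h4]
    linarith
  · have h7 := h6 h
    rw [h4, ← h]
    linarith

theorem n4D_inf {S : Cur} (hn : S.n = 4) (hk : S.k = 2) :
    4 * S.S2 none 2 - S.S3 none 2 ≤ 22 - 2 * (S.m : ℚ) := by
  obtain ⟨-, β, r, h1, h2, h3, h4, h5, h6, h7⟩ := n4I hn hk
  rcases lt_or_eq_of_le h2 with h | h
  · have h8 : -(S.m : ℤ) + 1 ≤ β := by omega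
    have h9 : -(S.m : ℚ) + 1 ≤ β := by exact_mod_cast h8
    rw [h5]
    linarith
  · have h8 := h7 h.symm
    have h9 : (β : ℚ) = -(S.m : ℚ) := by
      rw [← h]
      push_cast
      ring
    rw [h5, h9]
    linarith

theorem n4D_fin {S : Cur} (hn : S.n = 4) {v : ℂ} {N : ℕ} (hN : S.Adm (some v) N) :
    4 * S.S2 (some v) N - S.S3 (some v) N ≤ 18 * (S.Ram (some v) : ℚ) := by
  have h := F1b hN
  rw [hn] at h
  norm_num at h
  linarith

open Classical in
/-- the exponents: `2` at infinity and at the simple places, `4` at `v₁` -/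
noncomputable def n4D_N (S : Cur) (v₁ : ℂ) (P : Option ℂ) : ℕ :=
  if P = none then 2 else if P = some v₁ then 4 else
    if S.Ram P = 1 then 2 else Nat.factorial S.n

theorem n4D_N_none (S : Cur) (v₁ : ℂ) : n4D_N S v₁ none = 2 := by
  unfold n4D_N
  rw [if_pos rfl]

theorem n4D_N_one (S : Cur) (v₁ : ℂ) : n4D_N S v₁ (some v₁) = 4 := by
  unfold n4D_N
  rw [if_neg (Option.some_ne_none _), if_pos rfl]

theorem n4D_N_simple (S : Cur) {v₁ v : ℂ} (hv : v ≠ v₁) (h : S.Ram (some v) = 1) :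
    n4D_N S v₁ (some v) = 2 := by
  unfold n4D_N
  rw [if_neg (Option.some_ne_none _), if_neg (fun h' => hv (Option.some.inj h')), if_pos h]

theorem n4D_adm {S : Cur} (hn : S.n = 4) (hk : S.k = 2) {v₁ t₁ : ℂ}
    (he : S.e (some v₁) t₁ = 4) (P : Option ℂ) : S.Adm P (n4D_N S v₁ P) := by
  by_cases h0 : P = none
  · rw [h0, n4D_N_none]
    exact (n4I hn hk).1
  · obtain ⟨v, rfl⟩ := Option.ne_none_iff_exists'.1 h0
    by_cases h1 : v = v₁
    · rw [h1, n4D_N_one]
      exact (ram_four hn he).2.1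
    · by_cases h2 : S.Ram (some v) = 1
      · rw [n4D_N_simple S h1 h2]
        exact (n4S hn h2).1
      · unfold n4D_N
        rw [if_neg h0, if_neg (fun h' => h1 (Option.some.inj h')), if_neg h2]
        exact S.adm_factorial _

theorem n4D_sum {S : Cur} (N : Option ℂ → ℕ) (V : Finset ℂ)
    (h2 : ∑ v ∈ V, S.S2 (some v) (N (some v)) + S.S2 none (N none) = 12)
    (h3 : ∑ v ∈ V, S.S3 (some v) (N (some v)) + S.S3 none (N none) = 0) :
    ∑ v ∈ V, (4 * S.S2 (some v) (N (some v)) - S.S3 (some v) (N (some v))) +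
      (4 * S.S2 none (N none) - S.S3 none (N none)) = 48 := by
  rw [Finset.sum_sub_distrib, ← Finset.mul_sum]
  linarith

theorem n4D_rest {S : Cur} (hn : S.n = 4) (N : Option ℂ → ℕ) (hN : ∀ P, S.Adm P (N P))
    (V : Finset ℂ) {M : ℕ} (hM : ∑ v ∈ V, S.Ram (some v) ≤ M) :
    ∑ v ∈ V, (4 * S.S2 (some v) (N (some v)) - S.S3 (some v) (N (some v))) ≤ 18 * (M : ℚ) := by
  have h1 : ∑ v ∈ V, (4 * S.S2 (some v) (N (some v)) - S.S3 (some v) (N (some v))) ≤
      ∑ v ∈ V, 18 * (S.Ram (some v) : ℚ) := Finset.sum_le_sum fun v _ => n4D_fin hn (hN _)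
  rw [← Finset.mul_sum] at h1
  have h2 : (∑ v ∈ V, (S.Ram (some v) : ℚ)) ≤ M := by exact_mod_cast hM
  linarith

theorem n4D (S : Cur) (hn : S.n = 4) (hk : S.k = 2) {v₁ t₁ : ℂ} (he : S.e (some v₁) t₁ = 4)
    (h2 : ∃ t t' : ℂ, t ≠ t' ∧ S.IsCusp t ∧ S.IsCusp t') : S.m ≤ 7 := by
  classical
  obtain ⟨u, hu, hc⟩ : ∃ u : ℂ, u ≠ t₁ ∧ S.IsCusp u := by
    obtain ⟨t, t', hne, ht, ht'⟩ := h2
    by_cases h : t = t₁
    · exact ⟨t', fun h' => hne (h.trans h'.symm), ht'⟩
    · exact ⟨t, h, ht⟩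
  obtain ⟨P, hP⟩ := S.cusp_over u
  have hP1 : 1 ≤ S.Ram P := by
    have h3 := cusp_e hP hc
    have h4 := ram_ge hP
    omega
  obtain ⟨hr1, hr2, hr3⟩ := ram_four hn he
  have he' : S.e (some v₁) t₁ = S.n := he.trans hn.symm
  have hadm := n4D_adm hn hk he
  have hv1 := n4D_v hn he
  have hinf := n4D_inf hn hk
  rcases P with _ | v₂
  · -- a cusp over infinity
    obtain ⟨V, hV, hs2, hs3⟩ := glob4 hn (n4D_N S v₁) hadm {v₁}
    have hsum := n4D_sum _ V hs2 hs3
    have hv : v₁ ∈ V := hV (Finset.mem_singleton_self _)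
    rw [← Finset.add_sum_erase V _ hv, n4D_N_none, n4D_N_one] at hsum
    have hram := S.ram_le_tot he' (V.erase v₁) (Finset.notMem_erase _ _)
    have hrest := n4D_rest hn (n4D_N S v₁) hadm (V.erase v₁) (M := 1) (by omega)
    push_cast at hrest
    have h7 : (S.m : ℚ) ≤ 7 := by linarith
    exact_mod_cast h7
  · have hne : v₂ ≠ v₁ := by
      rintro rfl
      exact hu (hr1 u hP)
    have hram2 := S.ram_le_tot he' {v₂} (by
      rw [Finset.mem_singleton]
      exact hne.symm)
    rw [Finset.sum_singleton] at hram2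
    rcases (by omega : S.Ram (some v₂) = 2 ∨ S.Ram (some v₂) = 1) with hR | hR
    · -- `Ram = 2`
      obtain ⟨N₂, hN₂, hD₂⟩ := n4T hn hR hP hc
      set N : Option ℂ → ℕ := fun P => if P = some v₂ then N₂ else n4D_N S v₁ P with hNdef
      have hN : ∀ P, S.Adm P (N P) := by
        intro P
        by_cases h : P = some v₂
        · rw [hNdef, h]
          simp only [if_true]
          exact hN₂
        · rw [hNdef]
          simp only [if_neg h]
          exact hadm P
      have hN0 : N none = 2 := by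
        rw [hNdef]
        simp only [(Option.some_ne_none v₂).symm, if_false]
        exact n4D_N_none S v₁
      have hN1 : N (some v₁) = 4 := by
        rw [hNdef]
        simp only [if_neg (fun h' : some v₁ = some v₂ => hne (Option.some.inj h').symm)]
        exact n4D_N_one S v₁
      have hN2 : N (some v₂) = N₂ := by
        rw [hNdef]
        simp only [if_true]
      obtain ⟨V, hV, hs2, hs3⟩ := glob4 hn N hN {v₁, v₂}
      have hsum := n4D_sum N V hs2 hs3
      have hv : v₁ ∈ V := hV (by simp)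
      have hv' : v₂ ∈ V.erase v₁ := Finset.mem_erase.2 ⟨hne, hV (by simp)⟩
      rw [← Finset.add_sum_erase V _ hv, ← Finset.add_sum_erase (V.erase v₁) _ hv', hN0, hN1,
        hN2] at hsum
      have hram := S.ram_le_tot he' (V.erase v₁) (Finset.notMem_erase _ _)
      rw [← Finset.add_sum_erase (V.erase v₁) _ hv', hR] at hram
      have hrest := n4D_rest hn N hN ((V.erase v₁).erase v₂) (M := 0) (by omega)
      push_cast at hrest
      have h7 : (S.m : ℚ) ≤ 7 := by linarith
      exact_mod_cast h7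
    · -- `Ram = 1`
      obtain ⟨t, ht1, ht2, ht3⟩ := ram_one hR
      have htu : t = u := by
        by_contra h
        have h3 := ht2 u hP (fun h' => h h'.symm)
        have h4 := cusp_e hP hc
        omega
      rw [htu] at ht1 ht2
      obtain ⟨o, ho1, ho2, ho3, ho4, -⟩ := x2 ht3 ht1 ht2 hc
      rw [hn] at ho4
      norm_num at ho4
      obtain ⟨V, hV, hs2, hs3⟩ := glob4 hn (n4D_N S v₁) hadm {v₁, v₂}
      have hsum := n4D_sum _ V hs2 hs3
      have hv : v₁ ∈ V := hV (by simp)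
      have hv' : v₂ ∈ V.erase v₁ := Finset.mem_erase.2 ⟨hne, hV (by simp)⟩
      have hN2 := n4D_N_simple S hne hR
      have hram := S.ram_le_tot he' (V.erase v₁) (Finset.notMem_erase _ _)
      rw [← Finset.add_sum_erase (V.erase v₁) _ hv', hR] at hram
      have ho1' : (3 : ℚ) ≤ o := by exact_mod_cast ho1
      by_cases hex : ∃ v₃ ∈ (V.erase v₁).erase v₂, 1 ≤ S.Ram (some v₃)
      · obtain ⟨v₃, hv₃, hR₃⟩ := hex
        rw [← Finset.add_sum_erase ((V.erase v₁).erase v₂) _ hv₃] at hram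
        have hR3 : S.Ram (some v₃) = 1 := by omega
        have hR0 : S.Ram none = 0 := by omega
        have hz : ∀ v ∈ ((V.erase v₁).erase v₂).erase v₃, S.Ram (some v) = 0 := by
          intro v hv
          have := Finset.single_le_sum (f := fun v => S.Ram (some v)) (fun _ _ => Nat.zero_le _) hv
          omega
        have hne3 : v₃ ≠ v₁ := (Finset.mem_erase.1 (Finset.mem_erase.1 hv₃).2).1
        have hN3 := n4D_N_simple S hne3 hR3
        obtain ⟨-, B₃, hb1, hb2, hb3, hb4⟩ := n4S hn hR3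
        obtain ⟨B₁, B₂, ha1, ha2, ha3, ha4, ha5, ha6⟩ := n4V hn he
        obtain ⟨-, β, r, hc1, hc2, hc3, hc4, hc5, hc6, hc7⟩ := n4I hn hk
        have hr0 := hc4 hR0
        rw [← Finset.add_sum_erase V _ hv, ← Finset.add_sum_erase (V.erase v₁) _ hv',
          ← Finset.add_sum_erase ((V.erase v₁).erase v₂) _ hv₃, n4D_N_none, n4D_N_one, hN2, hN3]
          at hs2 hs3
        have hz2 : ∑ v ∈ ((V.erase v₁).erase v₂).erase v₃,
            S.S2 (some v) (n4D_N S v₁ (some v)) = 0 :=
          Finset.sum_eq_zero fun v hv => S2_unram (hadm _) (hz v hv)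
        have hz3 : 0 ≤ ∑ v ∈ ((V.erase v₁).erase v₂).erase v₃,
            S.S3 (some v) (n4D_N S v₁ (some v)) := by
          refine Finset.sum_nonneg fun v hv => ?_
          have h5 := n4D_fin hn (hadm (some v))
          rw [S2_unram (hadm _) (hz v hv), hz v hv] at h5
          push_cast at h5
          linarith
        rw [hz2, ha4, ho3, hb3, hc5, hr0] at hs2
        rw [hr0] at hc6 hc7
        have e1 : ((2 * B₁ + B₂ + (o + B₃) + (β - 4 * (S.m : ℤ)) : ℤ) : ℚ) = ((12 : ℤ) : ℚ) := by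
          push_cast
          linarith
        have e2 : 2 * B₁ + B₂ + (o + B₃) + (β - 4 * (S.m : ℤ)) = 12 := by exact_mod_cast e1
        by_contra hm
        rcases lt_or_eq_of_le ha1 with h5 | h5
        · have h6 := ha3 h5
          rcases lt_or_eq_of_le hc2 with h7 | h7
          · have e3 : (((6 * (B₁ + B₂) - 24) + (6 * β - 12 * (S.m : ℤ) - 24) + (6 * o - 12) +
                (6 * B₃ - 18) : ℤ) : ℚ) ≤ ((0 : ℤ) : ℚ) := by
              push_cast
              linarith
            have e4 := Int.cast_le.1 e3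
            omega
          · have h8 := hc7 h7.symm
            have e3 : (((6 * (B₁ + B₂) - 24) + (-18 * (S.m : ℤ) - 18) + (6 * o - 12) +
                (6 * B₃ - 18) : ℤ) : ℚ) ≤ ((0 : ℤ) : ℚ) := by
              push_cast
              linarith
            have e4 := Int.cast_le.1 e3
            omega
        · have h6 := ha6 h5
          rcases lt_or_eq_of_le hc2 with h7 | h7
          · have e3 : (((12 * B₁ - 18) + (6 * β - 12 * (S.m : ℤ) - 24) + (6 * o - 12) +
                (6 * B₃ - 18) : ℤ) : ℚ) ≤ ((0 : ℤ) : ℚ) := by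
              push_cast
              linarith
            have e4 := Int.cast_le.1 e3
            omega
          · have h8 := hc7 h7.symm
            have e3 : (((12 * B₁ - 18) + (-18 * (S.m : ℤ) - 18) + (6 * o - 12) +
                (6 * B₃ - 18) : ℤ) : ℚ) ≤ ((0 : ℤ) : ℚ) := by
              push_cast
              linarith
            have e4 := Int.cast_le.1 e3
            omega
      · push Not at hex
        have hz : ∑ v ∈ (V.erase v₁).erase v₂, S.Ram (some v) ≤ 0 := by
          refine (Finset.sum_eq_zero fun v hv => ?_).le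
          have := hex v hv
          omega
        have hrest := n4D_rest hn (n4D_N S v₁) hadm _ hz
        rw [← Finset.add_sum_erase V _ hv, ← Finset.add_sum_erase (V.erase v₁) _ hv', n4D_N_none,
          n4D_N_one, hN2, ho3] at hsum
        push_cast at hrest
        have h7 : (S.m : ℚ) ≤ 7 := by linarith
        exact_mod_cast h7

end Cur

end WR
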