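import Pool.Agent.helper65.N4.A
import Pool.Agent.helper65.N4.B
import Pool.Agent.helper65.N4.C
import Pool.Agent.helper65.N4.D

/-!
# N4-Fin: `n = 4`, `8 ≤ m`
-/

namespace WR

open Polynomial

namespace Cur

theorem gen4 (S : Cur) (hn : S.n = 4) (hm : 8 ≤ S.m)
    (h2 : ∃ t t' : ℂ, t ≠ t' ∧ S.IsCusp t ∧ S.IsCusp t') :
    S.k = 1 ∧ ∃ v t : ℂ, S.e (some v) t = S.n := by
  by_cases h : ∀ v t : ℂ, S.e (some v) t < 4
  · have hk := n4A S hn hm h
    obtain ⟨t, -, -, ht, -⟩ := h2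
    have := n4B S hn hk h ⟨t, ht⟩
    omega
  · push Not at h
    obtain ⟨v, t, hvt⟩ := h
    have hle := Gen_e_le S v t
    have he : S.e (some v) t = 4 := by omega
    have hk1 := S.hk
    have hk2 := S.hkn
    rcases (show S.k = 1 ∨ S.k = 2 ∨ S.k = 3 by omega) with hk | hk | hk
    · exact ⟨hk, v, t, by rw [he, hn]⟩
    · have := n4D S hn hk he h2
      omega
    · have := n4C S hn hk he
      omega

end Cur

end WR
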