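import Pool.Agent.helper65.N4.Glb

/-!
# N4-A: no totally ramified finite place: `k = 1`

Proof (all sheets with `N = 24`): `hN : ∀ P, S.Adm P 24` is `adm_factorial` (`24 = Nat.factorial S.n`).
`glob4 hn (fun _ => 24) hN ∅` gives `V` with `∑ S2 + S2∞ = 12`, `∑ S3 + S3∞ = 0`.
`F1a` at every `v ∈ V`: `5 S2 - 18 Ram ≤ S3` (`S.n = 4`). `I1a` with `col = 0` (`nocol4`):
`5 S2∞ - 24 - 18 Ram∞ + m (k² + 3) ≤ S3∞`. `ram_le V`: `∑ Ram + Ram∞ ≤ 4 + k - 1 = k + 3`.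
Sum: `60 - 24 - 18 (k + 3) + m (k² + 3) ≤ 0`: for `k = 2`: `7 m ≤ 54`, `m ≤ 7`; for `k = 3`:
`12 m ≤ 72`, `m ≤ 6`. (`1 ≤ k < 4` is `S.hk`, `S.hkn`.) See the proof of `Gen_A` in `WR/Gen.lean`
for the handling of the sums.
-/

namespace WR

open Polynomial

namespace Cur

theorem n4A (S : Cur) (hn : S.n = 4) (hm : 8 ≤ S.m) (h : ∀ v t : ℂ, S.e (some v) t < 4) :
    S.k = 1 := by
  classical
  have hN : ∀ P, S.Adm P (Nat.factorial S.n) := fun P => S.adm_factorial P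
  obtain ⟨V, -, g2, g3⟩ := glob4 hn (fun _ => Nat.factorial S.n) hN ∅
  have hk := S.hk
  have hkn := S.hkn
  have hI := I1a (hN none)
  have hF := Finset.sum_le_sum (s := V) fun v _ => F1a (hN (some v)) (fun t => by rw [hn]; exact h v t)
  rw [Finset.sum_sub_distrib, ← Finset.mul_sum, ← Finset.mul_sum] at hF
  rw [nocol4 hn (hN none)] at hI
  have hR := S.ram_le V
  have hR' : ∑ v ∈ V, (S.Ram (some v) : ℚ) + S.Ram none ≤ S.k + 3 := by
    have h1 : ((∑ v ∈ V, S.Ram (some v) + S.Ram none : ℕ) : ℚ) ≤ ((S.k + 3 : ℕ) : ℚ) := by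
      have h2 : ∑ v ∈ V, S.Ram (some v) + S.Ram none ≤ S.k + 3 := by omega
      exact_mod_cast h2
    push_cast at h1
    exact h1
  have hn' : (S.n : ℚ) = 4 := by rw [hn]; norm_num
  have hm' : (8 : ℚ) ≤ S.m := by exact_mod_cast hm
  rw [hn'] at hI hF
  rcases (show S.k = 1 ∨ S.k = 2 ∨ S.k = 3 by omega) with hk1 | hk1 | hk1
  · exact hk1
  · exfalso
    rw [hk1] at hI hR'
    push_cast at hI hR'
    linarith
  · exfalso
    rw [hk1] at hI hR'
    push_cast at hI hR'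
    linarith

end Cur

end WR
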