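import Pool.Agent.helper65.N4.Base

/-!
# N4-Col: `n = 4`: no three sheets are collinear
-/

namespace WR

open Polynomial

/-- the fourth element -/
theorem n4Col_fourth {A : Type} {R : Finset A} (hR : R.card = 4) {x y z : A} (hx : x ∈ R)
    (hy : y ∈ R) (hz : z ∈ R) (hxy : x ≠ y) (hxz : x ≠ z) (hyz : y ≠ z) :
    ∃ w ∈ R, w ≠ x ∧ w ≠ y ∧ w ≠ z ∧ ∀ u ∈ R, u ≠ w → u = x ∨ u = y ∨ u = z := by
  classical
  have hT : ({x, y, z} : Finset A) ⊆ R := by
    intro u hu
    simp only [Finset.mem_insert, Finset.mem_singleton] at hu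
    rcases hu with rfl | rfl | rfl
    · exact hx
    · exact hy
    · exact hz
  have hc : ({x, y, z} : Finset A).card = 3 := Finset.card_eq_three.2 ⟨x, y, z, hxy, hxz, hyz, rfl⟩
  have hd : (R \ ({x, y, z} : Finset A)).card = 1 := by
    rw [Finset.card_sdiff_of_subset hT, hR, hc]
  obtain ⟨w, hw⟩ := Finset.card_eq_one.1 hd
  have hwm : w ∈ R \ ({x, y, z} : Finset A) := by
    rw [hw]
    exact Finset.mem_singleton_self w
  rw [Finset.mem_sdiff] at hwm
  simp only [Finset.mem_insert, Finset.mem_singleton, not_or] at hwm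
  refine ⟨w, hwm.1, hwm.2.1, hwm.2.2.1, hwm.2.2.2, fun u hu huw => ?_⟩
  by_contra hn
  apply huw
  have : u ∈ R \ ({x, y, z} : Finset A) := by
    rw [Finset.mem_sdiff]
    refine ⟨hu, ?_⟩
    simp only [Finset.mem_insert, Finset.mem_singleton]
    exact hn
  rw [hw] at this
  exact Finset.mem_singleton.1 this

namespace Cur

variable {S : Cur} {P : Option ℂ} {N : ℕ}

/-- vanishing of the Wronskian does not depend on the order -/
theorem n4Col_perm {F : Type} [Field F] [Algebra ℂ F] {x y z x' y' z' : F}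
    (h : S.W P x y z = 0) (hx : x' = x ∨ x' = y ∨ x' = z) (hy : y' = x ∨ y' = y ∨ y' = z)
    (hz : z' = x ∨ z' = y ∨ z' = z) (hxy : x' ≠ y') (hxz : x' ≠ z') (hyz : y' ≠ z') :
    S.W P x' y' z' = 0 := by
  have s12 : ∀ a b c : F, S.W P a b c = 0 → S.W P b a c = 0 := fun a b c h => by
    rw [W_swap12, h, neg_zero]
  have s23 : ∀ a b c : F, S.W P a b c = 0 → S.W P a c b = 0 := fun a b c h => by
    rw [W_swap23, h, neg_zero]
  rcases hx with rfl | rfl | rfl <;> rcases hy with rfl | rfl | rfl <;>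
    rcases hz with rfl | rfl | rfl
  all_goals first
    | exact absurd rfl hxy
    | exact absurd rfl hxz
    | exact absurd rfl hyz
    | exact h
    | exact s12 _ _ _ h
    | exact s23 _ _ _ h
    | exact s12 _ _ _ (s23 _ _ _ h)
    | exact s23 _ _ _ (s12 _ _ _ h)
    | exact s12 _ _ _ (s23 _ _ _ (s12 _ _ _ h))

/-- the case `k = 1` -/
theorem n4Col_one (hn : S.n = 4) (hk : S.k = 1) : S.Adm none (S.n - 1) := by
  rw [hn]
  refine ⟨by norm_num, fun t ht => ?_, fun _ => by rw [hn, hk]⟩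
  have h1 : S.e none t ≤ 1 := by
    unfold e
    have h2 : rootMultiplicity t (S.al none) ≤ (S.al none).natDegree := by
      rw [← count_roots]
      exact le_trans (Multiset.count_le_card _ _) (card_roots' _)
    have h3 : (S.al none).natDegree = 1 := by
      show S.b.natDegree = 1
      rw [S.hb, hk]
    rwa [h3] at h2
  have h4 : 0 < S.e none t := (rootMultiplicity_pos (S.al_ne none)).2 ht
  have h5 : S.e none t = 1 := by omega
  rw [h5]
  exact one_dvd _

/-- a triple at infinity which is not collinear -/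
theorem n4Col_inf (hn : S.n = 4) (hk : 2 ≤ S.k) (hN : S.Adm none N) :
    ∃ i ∈ S.sh none N, ∃ j ∈ S.sh none N, ∃ l ∈ S.sh none N, i ≠ j ∧ i ≠ l ∧ j ≠ l ∧
      S.W none i j l ≠ 0 := by
  classical
  have hkn := S.hkn
  have hm := S.hm
  have h1 := S.sh_card none hN
  have h2 := S.card_cen_none none hN
  rw [if_pos rfl] at h2
  have h2' : ((S.sh none N).filter (fun τ => cen τ = none)).card = S.n - S.k := by
    convert h2
  have h3 := Finset.card_filter_add_card_filter_not (s := S.sh none N) (fun τ => cen τ = none)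
  rw [h1, h2'] at h3
  have h4 : 1 < ((S.sh none N).filter (fun τ => ¬ cen τ = none)).card := by omega
  have h5 : 0 < ((S.sh none N).filter (fun τ => cen τ = none)).card := by omega
  obtain ⟨i, hi⟩ := Finset.card_pos.1 h5
  obtain ⟨j, hj, l, hl, hjl⟩ := Finset.one_lt_card.1 h4
  rw [Finset.mem_filter] at hi hj hl
  have hij : i ≠ j := fun h => hj.2 (h ▸ hi.2)
  have hil : i ≠ l := fun h => hl.2 (h ▸ hi.2)
  refine ⟨i, hi.1, j, hj.1, l, hl.1, hij, hil, hjl, fun hW => ?_⟩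
  obtain ⟨-, e2, -⟩ := om_col hN.1 hi.1 hj.1 hl.1 hij hil hjl hW
  rw [rho_mix hN.1 hi.1 hj.1 hi.2 hj.2] at e2
  have h6 := rho_nonneg hN.1 hj.1 hl.1 hj.2 hl.2
  rw [← e2] at h6
  have h7 : (0 : ℚ) < (S.n : ℚ) - S.k := by
    have : (S.k : ℚ) < S.n := by exact_mod_cast hkn
    linarith
  have h8 : (0 : ℚ) < S.m := by
    have : 0 < S.m := by omega
    exact_mod_cast this
  have h9 : (0 : ℚ) < (S.m : ℚ) / ((S.n : ℚ) - S.k) := div_pos h8 h7
  linarith

theorem nocol4 (hn : S.n = 4) (hN : S.Adm P N) : S.col P N = 0 := by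
  classical
  have hk1 := S.hk
  by_cases hk : S.k = 1
  · exact nocol S hk (by omega) (n4Col_one hn hk) hN
  have hk2 : 2 ≤ S.k := by omega
  by_contra hcol
  obtain ⟨ιP, _, hιP⟩ := S.emb P hN
  rw [col_eq hN ιP (by convert hιP)] at hcol
  obtain ⟨⟨α, β, γ⟩, hθ⟩ := Finset.card_pos.1 (Nat.pos_of_ne_zero hcol)
  rw [Finset.mem_filter] at hθ
  obtain ⟨hθt, hW0⟩ := hθ
  simp only [tri, Finset.mem_filter, Finset.mem_product] at hθt
  obtain ⟨⟨hα, hβ, hγ⟩, hαβ, hαγ, hβγ⟩ := hθt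
  simp only at hW0
  have hA := S.adm_factorial none
  obtain ⟨ι, _, hι⟩ := S.emb none hA
  obtain ⟨i, hi, j, hj, l, hl, hij, hil, hjl, hW⟩ := n4Col_inf hn hk2 hA
  rw [← hι] at hi hj hl
  obtain ⟨θi, ti, rfl⟩ := Finset.mem_image.1 hi
  obtain ⟨θj, tj, rfl⟩ := Finset.mem_image.1 hj
  obtain ⟨θl, tl, rfl⟩ := Finset.mem_image.1 hl
  have dij : θi ≠ θj := fun h => hij (congrArg ι h)
  have dil : θi ≠ θl := fun h => hil (congrArg ι h)
  have djl : θj ≠ θl := fun h => hjl (congrArg ι h)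
  rw [hι] at hi hj hl
  have hW1 : S.W (some 0) θi θj θl ≠ 0 := by
    intro h
    apply hW
    rw [← GlobA_W_iff hA.1 hi hj hl, ← map_W, h, map_zero]
  have hcard : S.rt.card = 4 := by rw [S.rt_card, hn]
  obtain ⟨θ0, t0, d0i, d0j, d0l, -⟩ := n4Col_fourth hcard ti tj tl dij dil djl
  obtain ⟨δ, tδ, -, -, -, hδ⟩ := n4Col_fourth hcard hα hβ hγ hαβ hαγ hβγ
  obtain ⟨σ, hσ⟩ := gal_trans t0 tδ
  have hne : ∀ θ, θ0 ≠ θ → σ θ ≠ δ := by
    intro θ h h'
    apply h
    apply σ.injective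
    rw [hσ, h']
  have mi := hδ _ (gal_rt σ ti) (hne _ d0i)
  have mj := hδ _ (gal_rt σ tj) (hne _ d0j)
  have ml := hδ _ (gal_rt σ tl) (hne _ d0l)
  have h0 := n4Col_perm hW0 mi mj ml (fun h => dij (σ.injective h)) (fun h => dil (σ.injective h))
    (fun h => djl (σ.injective h))
  rw [← gal_W] at h0
  exact hW1 ((map_eq_zero σ).1 h0)

end Cur

end WR
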