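import Pool.Agent.helper65.N4.Col

/-!
# N4-Glb: the two global formulas and the bounds for a triple, `n = 4`
-/

namespace WR

open Polynomial

namespace Cur

variable {S : Cur} {P : Option ℂ} {N : ℕ}

/-- the two global formulas for `n = 4` -/
theorem glob4 (hn : S.n = 4) (N : Option ℂ → ℕ) (hN : ∀ P, S.Adm P (N P)) (T : Finset ℂ) :
    ∃ V : Finset ℂ, T ⊆ V ∧
      ∑ v ∈ V, S.S2 (some v) (N (some v)) + S.S2 none (N none) = 12 ∧
      ∑ v ∈ V, S.S3 (some v) (N (some v)) + S.S3 none (N none) = 0 := by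
  obtain ⟨c, hc, V₀, hV⟩ := glob S N hN
  have h0 : c = 0 := by rw [← hc none, nocol4 hn (hN none)]
  classical
  refine ⟨V₀ ∪ T, Finset.subset_union_right, ?_, ?_⟩
  · rw [(hV _ Finset.subset_union_left).1, hn]
    norm_num
  · rw [(hV _ Finset.subset_union_left).2, h0]
    norm_num

/-- the three naive bounds and the symmetric bound -/
theorem n4_tri (hn : S.n = 4) (hN : S.Adm P N) {i j l : M} (hi : i ∈ S.sh P N)
    (hj : j ∈ S.sh P N) (hl : l ∈ S.sh P N) (hij : i ≠ j) (hil : i ≠ l) (hjl : j ≠ l) :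
    S.rho P N i j + S.rho P N i l - 1 ≤ S.om P N i j l ∧
    S.rho P N i j + S.rho P N j l - 1 ≤ S.om P N i j l ∧
    S.rho P N i l + S.rho P N j l - 1 ≤ S.om P N i j l ∧
    2 / 3 * (S.rho P N i j + S.rho P N i l + S.rho P N j l) - 1 ≤ S.om P N i j l := by
  obtain ⟨h1, h2, h3⟩ := Fine4_naive hN.1 (nocol4 hn hN) hi hj hl hij hil hjl
  exact ⟨h1, h2, h3, by linarith⟩

/-- equal pair orders -/
theorem n4_eq (hn : S.n = 4) (hN : S.Adm P N) {i j l : M} (hi : i ∈ S.sh P N)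
    (hj : j ∈ S.sh P N) (hl : l ∈ S.sh P N) (hij : i ≠ j) (hil : i ≠ l) (hjl : j ≠ l)
    (he : S.rho P N i j = S.rho P N i l) :
    2 * S.rho P N i j - 1 + 1 / (N : ℚ) ≤ S.om P N i j l :=
  om_eq hN.1 hi hj hl hij hil hjl (Fine4_W (nocol4 hn hN) hi hj hl hij hil hjl) he

/-- finite centres -/
theorem n4_fin (hn : S.n = 4) (hN : S.Adm P N) {i j l : M} (hi : i ∈ S.sh P N)
    (hj : j ∈ S.sh P N) (hl : l ∈ S.sh P N) (hij : i ≠ j) (hil : i ≠ l) (hjl : j ≠ l)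
    {t₁ t₂ t₃ : ℂ} (c₁ : cen i = some t₁) (c₂ : cen j = some t₂) (c₃ : cen l = some t₃) :
    -((1 - 1 / (S.e P t₁ : ℚ)) + (1 - 1 / (S.e P t₂ : ℚ)) + (1 - 1 / (S.e P t₃ : ℚ))) ≤
      S.om P N i j l :=
  om_fin hN.1 hi hj hl c₁ c₂ c₃ (Fine4_W (nocol4 hn hN) hi hj hl hij hil hjl)

end Cur

end WR
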