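import Pool.Agent.helper65.N4.J

/-!
# N4-I: `k = 2`, the place at infinity with `N = 2`
-/

namespace WR

open Polynomial

namespace Cur

theorem n4I {S : Cur} (hn : S.n = 4) (hk : S.k = 2) :
    S.Adm none 2 ∧ ∃ (β : ℤ) (r : ℚ), ¬ (2 : ℤ) ∣ β ∧ -(S.m : ℤ) ≤ β ∧ 0 ≤ r ∧
      (S.Ram none = 0 → r = 0) ∧ S.S2 none 2 = β - 4 * S.m + 2 * r ∧
      6 * (β : ℚ) - 12 * S.m + 12 * r - 24 ≤ S.S3 none 2 ∧
      (β = -(S.m : ℤ) → -18 * (S.m : ℚ) + 12 * r - 18 ≤ S.S3 none 2) := by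
  classical
  have hR := ram_inf S
  have hN : S.Adm none 2 := by
    refine ⟨by norm_num, fun t ht => ?_, fun _ => by rw [hn, hk]⟩
    have h1 := ram_ge ht
    have h2 := (e_pos_iff none t).2 ht
    rcases (show S.e none t = 1 ∨ S.e none t = 2 by omega) with h | h
    · rw [h]
      norm_num
    · rw [h]
  have hc : ((S.sh none 2).filter (fun τ => cen τ = none)).card = 2 := by
    have h1 := S.card_cen_none none hN
    rw [if_pos rfl, hn, hk] at h1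
    exact h1
  obtain ⟨x₀, x₁, x₂, x₃, L, c0, c1, c2, c3⟩ := lab2 hn hN (fun τ => cen τ = none)
    (by convert hc)
  have hnk : (S.n : ℚ) - S.k = 2 := by
    rw [hn, hk]
    norm_num
  obtain ⟨β, hβ, -, -, hβr⟩ := class_prime hN Nat.prime_two L.m0 (by rw [c0]; exact hc)
  have r01 : S.rho none 2 x₀ x₁ = (β : ℚ) / 2 := by
    have := hβr x₀ L.m0 x₁ L.m1 L.n01 rfl (by rw [c0, c1])
    exact_mod_cast this
  have r02 := rho_mix hN.1 L.m0 L.m2 c0 c2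
  have r03 := rho_mix hN.1 L.m0 L.m3 c0 c3
  have r12 := rho_mix hN.1 L.m1 L.m2 c1 c2
  have r13 := rho_mix hN.1 L.m1 L.m3 c1 c3
  have rin := rho_inf hN.1 L.m0 L.m1 c0 c1
  rw [hnk] at r02 r03 r12 r13 rin
  rw [r01] at rin
  have hβm : -(S.m : ℤ) ≤ β := by
    have : -(S.m : ℚ) ≤ (β : ℚ) := by linarith
    exact_mod_cast this
  have q23 := rho_nonneg hN.1 L.m2 L.m3 c2 c3
  have t012 := (n4_tri hn hN L.m0 L.m1 L.m2 L.n01 L.n02 L.n12).1
  have t013 := (n4_tri hn hN L.m0 L.m1 L.m3 L.n01 L.n03 L.n13).1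
  have t023 := (n4_tri hn hN L.m0 L.m2 L.m3 L.n02 L.n03 L.n23).2.1
  have t123 := (n4_tri hn hN L.m1 L.m2 L.m3 L.n12 L.n13 L.n23).2.1
  have hS2 := L.S2
  have hS3 := L.S3
  rw [r01, r02] at t012
  rw [r01, r03] at t013
  rw [r02] at t023
  rw [r12] at t123
  rw [r01, r02, r03, r12, r13] at hS2
  refine ⟨hN, β, S.rho none 2 x₂ x₃, hβ, hβm, q23, fun h0 => n4J_diff hN h0 L.m2 L.m3 L.n23 c2 c3,
    ?_, ?_, ?_⟩
  · rw [hS2]
    ring
  · rw [hS3]
    linarith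
  · intro hb
    have hbq : (β : ℚ) = -(S.m : ℚ) := by
      rw [hb]
      push_cast
      rfl
    have e012 := n4_eq hn hN L.m0 L.m1 L.m2 L.n01 L.n02 L.n12 (by rw [r01, r02, hbq]; ring)
    have e013 := n4_eq hn hN L.m0 L.m1 L.m3 L.n01 L.n03 L.n13 (by rw [r01, r03, hbq]; ring)
    rw [r01, hbq] at e012 e013
    push_cast at e012 e013
    rw [hS3]
    linarith

end Cur

end WR
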