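import Pool.Agent.helper65.N4.Glb

/-!
# N4-J: `k = 3`, the place at infinity, any `N`

One sheet has centre `none` (`card_cen_none`: `n - k = 1`), the others have finite centres: `lab1` with
`p := fun τ => cen τ = none` gives `x₀` with centre `none` and `x₁, x₂, x₃` with finite centres.
`rho_mix`: `ρ01 = ρ02 = ρ03 = -m` (`n - k = 1`). `rho_nonneg`: `ρ12, ρ13, ρ23 ≥ 0`, `σ` their sum.
`Lab.S2`: `S2 = 2 (σ - 3 m)`. `n4_tri`: `om 012 ≥ ρ01 + ρ12 - 1 = -m + ρ12 - 1`, similarly `om 013, om 023`.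
If `Ram none = 0`: all `e` are `1` (`ram_zero`; roots by `loc_fin`), so the three finite centres are
different (`card_cen`: there is only one sheet with a given centre), `rho_diff`: `σ = 0`, and `n4_fin`:
`om 123 ≥ 0`. `S3 ≥ -18 m - 18 = 4 S2 + 6 m - 18`.
If `1 ≤ Ram none`: `om 123 ≥ 2/3 σ - 1` (`n4_tri`), `S3 ≥ 10 σ - 18 m - 24 ≥ 8 σ - 18 m - 36`, and
`4 S2 + 6 m - 18 - 18 Ram ≤ 8 σ - 18 m - 36`.
-/

namespace WR

open Polynomial

namespace Cur

/-- unramified fibre: sheets with finite centres have pair order zero -/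
theorem n4J_diff {S : Cur} {N : ℕ} (hN : S.Adm none N) (hR : S.Ram none = 0) {i j : M}
    (hi : i ∈ S.sh none N) (hj : j ∈ S.sh none N) (hij : i ≠ j) (ci : cen i ≠ none)
    (cj : cen j ≠ none) : S.rho none N i j = 0 := by
  classical
  obtain ⟨t, ht⟩ := Option.ne_none_iff_exists'.1 ci
  obtain ⟨t', ht'⟩ := Option.ne_none_iff_exists'.1 cj
  by_cases h : t = t'
  · exfalso
    subst h
    have h1 := S.card_cen none hN t
    rw [ram_zero hR (loc_fin hN.1 hi ht).1] at h1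
    have h2 : 1 < ((S.sh none N).filter (fun τ => cen τ = some t)).card :=
      Finset.one_lt_card.2 ⟨i, Finset.mem_filter.2 ⟨hi, ht⟩, j, Finset.mem_filter.2 ⟨hj, ht'⟩, hij⟩
    omega
  · exact rho_diff hN.1 hi hj ht ht' h

theorem n4J {S : Cur} {N : ℕ} (hn : S.n = 4) (hk : S.k = 3) (hN : S.Adm none N) :
    4 * S.S2 none N + 6 * S.m - 18 - 18 * S.Ram none ≤ S.S3 none N := by
  classical
  have hc : ((S.sh none N).filter (fun τ => cen τ = none)).card = 1 := by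
    have h1 := S.card_cen_none none hN
    rw [if_pos rfl, hn, hk] at h1
    exact h1
  obtain ⟨x₀, x₁, x₂, x₃, L, c0, c1, c2, c3⟩ := lab1 hn hN (fun τ => cen τ = none)
    (by convert hc)
  have hnk : (S.n : ℚ) - S.k = 1 := by
    rw [hn, hk]
    norm_num
  have r01 := rho_mix hN.1 L.m0 L.m1 c0 c1
  have r02 := rho_mix hN.1 L.m0 L.m2 c0 c2
  have r03 := rho_mix hN.1 L.m0 L.m3 c0 c3
  rw [hnk, div_one] at r01 r02 r03
  have q12 := rho_nonneg hN.1 L.m1 L.m2 c1 c2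
  have q13 := rho_nonneg hN.1 L.m1 L.m3 c1 c3
  have q23 := rho_nonneg hN.1 L.m2 L.m3 c2 c3
  have t012 := (n4_tri hn hN L.m0 L.m1 L.m2 L.n01 L.n02 L.n12).2.1
  have t013 := (n4_tri hn hN L.m0 L.m1 L.m3 L.n01 L.n03 L.n13).2.1
  have t023 := (n4_tri hn hN L.m0 L.m2 L.m3 L.n02 L.n03 L.n23).2.1
  have t123 := (n4_tri hn hN L.m1 L.m2 L.m3 L.n12 L.n13 L.n23).2.2.2
  have hS2 := L.S2
  have hS3 := L.S3
  rw [r01] at t012 t013
  rw [r02] at t023
  rw [r01, r02, r03] at hS2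
  rcases Nat.eq_zero_or_pos (S.Ram none) with hR | hR
  · have d12 := n4J_diff hN hR L.m1 L.m2 L.n12 c1 c2
    have d13 := n4J_diff hN hR L.m1 L.m3 L.n13 c1 c3
    have d23 := n4J_diff hN hR L.m2 L.m3 L.n23 c2 c3
    obtain ⟨t₁, h1⟩ := Option.ne_none_iff_exists'.1 c1
    obtain ⟨t₂, h2⟩ := Option.ne_none_iff_exists'.1 c2
    obtain ⟨t₃, h3⟩ := Option.ne_none_iff_exists'.1 c3
    have hf := n4_fin hn hN L.m1 L.m2 L.m3 L.n12 L.n13 L.n23 h1 h2 h3
    rw [ram_zero hR (loc_fin hN.1 L.m1 h1).1, ram_zero hR (loc_fin hN.1 L.m2 h2).1,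
      ram_zero hR (loc_fin hN.1 L.m3 h3).1] at hf
    norm_num at hf
    rw [d12] at t012
    rw [d13] at t013
    rw [d23] at t023
    rw [d12, d13, d23] at hS2
    rw [hS2, hS3, hR]
    push_cast
    linarith
  · have hR' : (1 : ℚ) ≤ (S.Ram none : ℚ) := by exact_mod_cast hR
    rw [hS2, hS3]
    linarith

end Cur

end WR
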