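import Pool.Agent.helper65.N4.Glb

/-!
# N4-P: a finite place with `Ram = 2`, any `N`

`ram_two hn hR` gives the two types of fibres.
Type `(2, 2)`, points `t ≠ t'`: `card_cen` gives 2 sheets with centre `some t`; `lab2` with
`p := fun τ => cen τ = some t` labels them `x₀, x₁` and the others `x₂, x₃`, which have centre `some t'`
(`X2_cen` or `loc_fin`: the centre is `some u` with `u` a root of `al`, so `u = t` or `u = t'`).
`rho x₀ x₂ = rho x₀ x₃ = rho x₁ x₂ = rho x₁ x₃ = 0` (`rho_diff`), `rho x₀ x₁, rho x₂ x₃ ≥ 0`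
(`rho_nonneg`). `Lab.S2`: `S2 = 2 (ρ01 + ρ23)`. `n4_tri`: `om 012, om 013 ≥ ρ01 - 1`,
`om 023, om 123 ≥ ρ23 - 1`; `Lab.S3`: `S3 ≥ 12 (ρ01 + ρ23) - 24 = 6 S2 - 24 ≥ 5 S2 - 24`.
Type `(3, 1)`: `lab3` with `p := fun τ => cen τ = some t`: `x₀, x₁, x₂` with centre `some t`, `x₃` with
centre `some t'`; `ρ03 = ρ13 = ρ23 = 0`; with `σ = ρ01 + ρ02 + ρ12 ≥ 0`: `S2 = 2 σ`,
`om 012 ≥ 2/3 σ - 1`, `om ij3 ≥ ρij - 1`, `S3 ≥ 10 σ - 24 = 5 S2 - 24`.
-/

namespace WR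

open Polynomial

namespace Cur

theorem n4X_P_cen {S : Cur} {v : ℂ} {N : ℕ} (hN : S.Adm (some v) N) {t t' : ℂ}
    (hr : ∀ u, (S.al (some v)).IsRoot u → u = t ∨ u = t') {τ : M} (hτ : τ ∈ S.sh (some v) N)
    (hc : ¬ cen τ = some t) : cen τ = some t' := by
  obtain ⟨u, hu⟩ := X2_cen hN.1 hτ
  rcases hr u (loc_fin hN.1 hτ hu).1 with h | h
  · exact absurd (h ▸ hu) hc
  · exact h ▸ hu

theorem n4P {S : Cur} {v : ℂ} {N : ℕ} (hn : S.n = 4) (hN : S.Adm (some v) N)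
    (hR : S.Ram (some v) = 2) :
    5 * S.S2 (some v) N - 24 ≤ S.S3 (some v) N := by
  rcases ram_two hn hR with ⟨t, t', hne, he, he', hr, _⟩ | ⟨t, t', hne, he, he', hr, _⟩
  · obtain ⟨x₀, x₁, x₂, x₃, L, c0, c1, c2, c3⟩ := lab2 hn hN (fun τ => cen τ = some t) (by
      rw [← he, ← S.card_cen (some v) hN t]
      congr!)
    have d2 := n4X_P_cen hN hr L.m2 c2
    have d3 := n4X_P_cen hN hr L.m3 c3
    have r02 := rho_diff hN.1 L.m0 L.m2 c0 d2 hne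
    have r03 := rho_diff hN.1 L.m0 L.m3 c0 d3 hne
    have r12 := rho_diff hN.1 L.m1 L.m2 c1 d2 hne
    have r13 := rho_diff hN.1 L.m1 L.m3 c1 d3 hne
    have p01 := rho_nonneg hN.1 L.m0 L.m1 (by rw [c0]; exact Option.some_ne_none t)
      (by rw [c1]; exact Option.some_ne_none t)
    have p23 := rho_nonneg hN.1 L.m2 L.m3 (by rw [d2]; exact Option.some_ne_none t')
      (by rw [d3]; exact Option.some_ne_none t')
    have h012 := (n4_tri hn hN L.m0 L.m1 L.m2 L.n01 L.n02 L.n12).1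
    have h013 := (n4_tri hn hN L.m0 L.m1 L.m3 L.n01 L.n03 L.n13).1
    have h023 := (n4_tri hn hN L.m0 L.m2 L.m3 L.n02 L.n03 L.n23).2.2.1
    have h123 := (n4_tri hn hN L.m1 L.m2 L.m3 L.n12 L.n13 L.n23).2.2.1
    rw [L.S2, L.S3]
    linarith
  · obtain ⟨x₀, x₁, x₂, x₃, L, c0, c1, c2, c3⟩ := lab3 hn hN (fun τ => cen τ = some t) (by
      rw [← he, ← S.card_cen (some v) hN t]
      congr!)
    have d3 := n4X_P_cen hN hr L.m3 c3
    have r03 := rho_diff hN.1 L.m0 L.m3 c0 d3 hne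
    have r13 := rho_diff hN.1 L.m1 L.m3 c1 d3 hne
    have r23 := rho_diff hN.1 L.m2 L.m3 c2 d3 hne
    have h012 := (n4_tri hn hN L.m0 L.m1 L.m2 L.n01 L.n02 L.n12).2.2.2
    have h013 := (n4_tri hn hN L.m0 L.m1 L.m3 L.n01 L.n03 L.n13).1
    have h023 := (n4_tri hn hN L.m0 L.m2 L.m3 L.n02 L.n03 L.n23).1
    have h123 := (n4_tri hn hN L.m1 L.m2 L.m3 L.n12 L.n13 L.n23).1
    rw [L.S2, L.S3]
    linarith

end Cur

end WR
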